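import Mathlib

/-!
Squad PLX (MP_1fc801_co): sets of bounded doubling with few distinct distances have a line with
`sqrt n / (log n) ^ A` points.  Definitions and first facts.

SETTING.  `A` is a rational vector space, `G` an additive subgroup of `A`, `f : A →+ E` an additive
map to a real normed space (the size of `x` is `‖f x‖`, all balls of `G` are finite) and
`Φ : A →+ ℂ` an additive map to the plane, injective on a large ball of `G` (`Ppr`).
-/

set_option autoImplicit false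

namespace Pool.Agent.PLX

open Module

/-! ### the plane -/

/-- a point of the line of slope `t` with real part `0` is `0` -/
theorem eq_zero_of_re {t : ℝ} {x : ℂ} (h : x.im = t * x.re) (h0 : x.re = 0) : x = 0 :=
  Complex.ext h0 (by rw [h, h0, mul_zero]; rfl)

theorem eq_of_re {t : ℝ} {x y : ℂ} (hx : x.im = t * x.re) (hy : y.im = t * y.re)
    (h0 : x.re = y.re) : x = y :=
  Complex.ext h0 (by rw [hx, hy, h0])

/-- two lines with different slopes intersect in `0` -/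
theorem eq_zero_of_slopes {s t : ℝ} {x : ℂ} (hst : s ≠ t) (hs : x.im = s * x.re)
    (ht : x.im = t * x.re) : x = 0 := by
  refine eq_zero_of_re hs ?_
  have h : (s - t) * x.re = 0 := by rw [sub_mul, ← hs, ← ht, sub_self]
  exact (mul_eq_zero.1 h).resolve_left (sub_ne_zero.2 hst)

/-- the real line through `0` and `z`, as an additive group -/
noncomputable def lin (z : ℂ) : AddSubgroup ℂ where
  carrier := {x | ∃ r : ℝ, x = r * z}
  zero_mem' := ⟨0, by simp⟩
  add_mem' := by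
    rintro x y ⟨r, rfl⟩ ⟨s, rfl⟩
    exact ⟨r + s, by push_cast; ring⟩
  neg_mem' := by
    rintro x ⟨r, rfl⟩
    exact ⟨-r, by push_cast; ring⟩

theorem mem_lin {z x : ℂ} : x ∈ lin z ↔ ∃ r : ℝ, x = r * z := Iff.rfl

section group

variable {A : Type} [AddCommGroup A]

/-- the elements of `G` whose image is on the line through `0` of slope `t` -/
noncomputable def lp (Φ : A →+ ℂ) (G : AddSubgroup A) (t : ℝ) : AddSubgroup A where
  carrier := {x | x ∈ G ∧ (Φ x).im = t * (Φ x).re}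
  zero_mem' := ⟨G.zero_mem, by simp⟩
  add_mem' := by
    rintro x y ⟨h1, h2⟩ ⟨h3, h4⟩
    refine ⟨G.add_mem h1 h3, ?_⟩
    rw [map_add, Complex.add_im, Complex.add_re, h2, h4]
    ring
  neg_mem' := by
    rintro x ⟨h1, h2⟩
    refine ⟨G.neg_mem h1, ?_⟩
    rw [map_neg, Complex.neg_im, Complex.neg_re, h2]
    ring

theorem mem_lp {Φ : A →+ ℂ} {G : AddSubgroup A} {t : ℝ} {x : A} :
    x ∈ lp Φ G t ↔ x ∈ G ∧ (Φ x).im = t * (Φ x).re := Iff.rfl

/-- the elements of `G` whose image is on the real line through `0` and `z` -/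
noncomputable def lz (Φ : A →+ ℂ) (G : AddSubgroup A) (z : ℂ) : AddSubgroup A :=
  G ⊓ (lin z).comap Φ

theorem mem_lz {Φ : A →+ ℂ} {G : AddSubgroup A} {z : ℂ} {x : A} :
    x ∈ lz Φ G z ↔ x ∈ G ∧ ∃ r : ℝ, Φ x = r * z := Iff.rfl

theorem lp_le {Φ : A →+ ℂ} {G : AddSubgroup A} {t : ℝ} : lp Φ G t ≤ G := fun _ h => h.1

theorem lz_le {Φ : A →+ ℂ} {G : AddSubgroup A} {z : ℂ} : lz Φ G z ≤ G := inf_le_left

variable {E : Type} [NormedAddCommGroup E]

/-- all balls of `G` are finite; the size of `x` is `‖f x‖` -/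
def Dsc (f : A →+ E) (G : AddSubgroup A) : Prop := ∀ r : ℝ, {x : A | x ∈ G ∧ ‖f x‖ ≤ r}.Finite

open Classical in
/-- the elements of `G` of size at most `r` -/
noncomputable def bl (f : A →+ E) (G : AddSubgroup A) (r : ℝ) : Finset A :=
  if h : {x : A | x ∈ G ∧ ‖f x‖ ≤ r}.Finite then h.toFinset else ∅

/-- the number of the elements of `G` of size at most `r` -/
noncomputable def cnt (f : A →+ E) (G : AddSubgroup A) (r : ℝ) : ℕ := (bl f G r).card

/-- the elements of size at most `r` whose image has positive real part -/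
noncomputable def ps (Φ : A →+ ℂ) (f : A →+ E) (G : AddSubgroup A) (r : ℝ) : Finset A :=
  (bl f G r).filter fun x => 0 < (Φ x).re

/-- the elements of size at most `r` whose image has positive real part and slope between `a`
and `b` -/
noncomputable def cone (Φ : A →+ ℂ) (f : A →+ E) (G : AddSubgroup A) (r a b : ℝ) : Finset A :=
  (bl f G r).filter fun x => 0 < (Φ x).re ∧ a * (Φ x).re ≤ (Φ x).im ∧ (Φ x).im ≤ b * (Φ x).re

/-- `Φ` is `T`-proper on `G` -/
def Ppr (Φ : A →+ ℂ) (f : A →+ E) (G : AddSubgroup A) (T : ℝ) : Prop :=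
  ∀ x ∈ G, ‖f x‖ ≤ T → Φ x = 0 → x = 0

variable {Φ : A →+ ℂ} {f : A →+ E} {G H : AddSubgroup A} {r : ℝ} {x y : A}

theorem mem_bl (h : Dsc f G) : x ∈ bl f G r ↔ x ∈ G ∧ ‖f x‖ ≤ r := by
  unfold bl
  rw [dif_pos (h r), Set.Finite.mem_toFinset]
  rfl

theorem mem_ps (h : Dsc f G) : x ∈ ps Φ f G r ↔ x ∈ G ∧ ‖f x‖ ≤ r ∧ 0 < (Φ x).re := by
  unfold ps
  rw [Finset.mem_filter, mem_bl h, and_assoc]

theorem mem_cone (h : Dsc f G) {a b : ℝ} : x ∈ cone Φ f G r a b ↔
    x ∈ G ∧ ‖f x‖ ≤ r ∧ 0 < (Φ x).re ∧ a * (Φ x).re ≤ (Φ x).im ∧ (Φ x).im ≤ b * (Φ x).re := by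
  unfold cone
  rw [Finset.mem_filter, mem_bl h, and_assoc]

theorem Dsc.mono (h : Dsc f G) (hH : H ≤ G) : Dsc f H := fun r =>
  (h r).subset fun _ hx => ⟨hH hx.1, hx.2⟩

theorem Dsc.lp (h : Dsc f G) (t : ℝ) : Dsc f (lp Φ G t) := h.mono lp_le

theorem Dsc.lz (h : Dsc f G) (z : ℂ) : Dsc f (lz Φ G z) := h.mono lz_le

theorem Ppr.mono {T T' : ℝ} (h : Ppr Φ f G T) (hT : T' ≤ T) : Ppr Φ f G T' :=
  fun x hx h1 h2 => h x hx (h1.trans hT) h2

theorem Ppr.sub {T : ℝ} (h : Ppr Φ f G T) (hH : H ≤ G) : Ppr Φ f H T :=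
  fun x hx h1 h2 => h x (hH hx) h1 h2

theorem bl_mono (h : Dsc f G) {r' : ℝ} (hr : r ≤ r') : bl f G r ⊆ bl f G r' := by
  intro x hx
  rw [mem_bl h] at hx ⊢
  exact ⟨hx.1, hx.2.trans hr⟩

theorem bl_sub (h : Dsc f G) (hH : H ≤ G) : bl f H r ⊆ bl f G r := by
  intro x hx
  rw [mem_bl (h.mono hH)] at hx
  rw [mem_bl h]
  exact ⟨hH hx.1, hx.2⟩

theorem cnt_mono (h : Dsc f G) {r' : ℝ} (hr : r ≤ r') : cnt f G r ≤ cnt f G r' :=
  Finset.card_le_card (bl_mono h hr)

theorem cnt_sub (h : Dsc f G) (hH : H ≤ G) : cnt f H r ≤ cnt f G r :=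
  Finset.card_le_card (bl_sub h hH)

theorem zero_mem_bl (h : Dsc f G) (hr : 0 ≤ r) : (0 : A) ∈ bl f G r := by
  rw [mem_bl h, map_zero, norm_zero]
  exact ⟨G.zero_mem, hr⟩

theorem one_le_cnt (h : Dsc f G) (hr : 0 ≤ r) : 1 ≤ cnt f G r :=
  Finset.card_pos.2 ⟨0, zero_mem_bl h hr⟩

theorem neg_mem_bl (h : Dsc f G) (hx : x ∈ bl f G r) : -x ∈ bl f G r := by
  rw [mem_bl h] at hx ⊢
  rw [map_neg, norm_neg]
  exact ⟨G.neg_mem hx.1, hx.2⟩

theorem add_mem_bl (h : Dsc f G) {r' : ℝ} (hx : x ∈ bl f G r) (hy : y ∈ bl f G r') :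
    x + y ∈ bl f G (r + r') := by
  rw [mem_bl h] at hx hy ⊢
  rw [map_add]
  exact ⟨G.add_mem hx.1 hy.1, (norm_add_le _ _).trans (add_le_add hx.2 hy.2)⟩

theorem sub_mem_bl (h : Dsc f G) {r' : ℝ} (hx : x ∈ bl f G r) (hy : y ∈ bl f G r') :
    x - y ∈ bl f G (r + r') := by
  rw [sub_eq_add_neg]
  exact add_mem_bl h hx (neg_mem_bl h hy)

/-- half of the nonzero elements of a ball have positive real part -/
theorem card_ps (h : Dsc f G) (hr : 0 ≤ r) (hG : ∀ x ∈ G, ‖f x‖ ≤ r → (Φ x).re = 0 → x = 0) :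
    cnt f G r = 2 * (ps Φ f G r).card + 1 := by
  classical
  have h1 : bl f G r = insert 0 (ps Φ f G r ∪ (ps Φ f G r).image fun x => -x) := by
    ext x
    simp only [Finset.mem_insert, Finset.mem_union, Finset.mem_image, mem_bl h, mem_ps h]
    constructor
    · rintro ⟨h1, h2⟩
      rcases lt_trichotomy (Φ x).re 0 with h3 | h3 | h3
      · refine Or.inr (Or.inr ⟨-x, ⟨G.neg_mem h1, ?_, ?_⟩, neg_neg x⟩)
        · rw [map_neg, norm_neg]
          exact h2
        · rw [map_neg, Complex.neg_re]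
          linarith
      · exact Or.inl (hG x h1 h2 h3)
      · exact Or.inr (Or.inl ⟨h1, h2, h3⟩)
    · rintro (rfl | ⟨h1, h2, -⟩ | ⟨y, ⟨h1, h2, -⟩, rfl⟩)
      · exact ⟨G.zero_mem, by rw [map_zero, norm_zero]; exact hr⟩
      · exact ⟨h1, h2⟩
      · exact ⟨G.neg_mem h1, by rw [map_neg, norm_neg]; exact h2⟩
  have h2 : Disjoint (ps Φ f G r) ((ps Φ f G r).image fun x => -x) := by
    rw [Finset.disjoint_left]
    intro x h3 h4
    obtain ⟨y, h5, rfl⟩ := Finset.mem_image.1 h4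
    have h6 := (mem_ps h).1 h3
    have h7 := (mem_ps h).1 h5
    have h8 := h6.2.2
    rw [map_neg, Complex.neg_re] at h8
    linarith [h7.2.2]
  have h3 : (0 : A) ∉ ps Φ f G r ∪ (ps Φ f G r).image fun x => -x := by
    simp only [Finset.mem_union, Finset.mem_image, mem_ps h]
    rintro (⟨-, -, h4⟩ | ⟨y, ⟨-, -, h4⟩, h5⟩)
    · simp at h4
    · rw [neg_eq_zero] at h5
      subst h5
      simp at h4
  unfold cnt
  rw [h1, Finset.card_insert_of_notMem h3, Finset.card_union_of_disjoint h2,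
    Finset.card_image_of_injective _ neg_injective]
  ring

theorem card_ps_lp {T : ℝ} (h : Dsc f G) (hr : 0 ≤ r) (hT : Ppr Φ f G T) (hrT : r ≤ T) (t : ℝ) :
    cnt f (lp Φ G t) r = 2 * (ps Φ f (lp Φ G t) r).card + 1 :=
  card_ps (h.lp t) hr fun x hx h1 h0 => hT x hx.1 (h1.trans hrT) (eq_zero_of_re hx.2 h0)

end group

section space

variable {A : Type} [AddCommGroup A] {E : Type} [NormedAddCommGroup E] [NormedSpace ℝ E]
variable {f : A →+ E} {G H : AddSubgroup A} {r : ℝ} {x y : A}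

theorem f_nat (f : A →+ E) (c : ℕ) (x : A) : f (c • x) = (c : ℝ) • f x := by
  rw [map_nsmul, Nat.cast_smul_eq_nsmul]

theorem f_int (f : A →+ E) (c : ℤ) (x : A) : f (c • x) = (c : ℝ) • f x := by
  rw [map_zsmul, Int.cast_smul_eq_zsmul]

theorem norm_f_nat (f : A →+ E) (c : ℕ) (x : A) : ‖f (c • x)‖ = c * ‖f x‖ := by
  rw [f_nat, norm_smul, Real.norm_natCast]

theorem norm_f_int (f : A →+ E) (c : ℤ) (x : A) : ‖f (c • x)‖ = |(c : ℝ)| * ‖f x‖ := by
  rw [f_int, norm_smul, Real.norm_eq_abs]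

end space

section rational

variable {A : Type} [AddCommGroup A] [Module ℚ A]

/-- the rational span of `G` -/
noncomputable def sp (G : AddSubgroup A) : Submodule ℚ A := Submodule.span ℚ (G : Set A)

theorem le_sp {G : AddSubgroup A} {x : A} (h : x ∈ G) : x ∈ sp G := Submodule.subset_span h

theorem sp_mono {G H : AddSubgroup A} (h : G ≤ H) : sp G ≤ sp H := Submodule.span_mono h

variable {E : Type} [NormedAddCommGroup E]

/-- the rational span of a ball -/
noncomputable def bs (f : A →+ E) (G : AddSubgroup A) (r : ℝ) : Submodule ℚ A :=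
  Submodule.span ℚ (bl f G r : Set A)

variable {f : A →+ E} {G H : AddSubgroup A} {r : ℝ} {x y : A}

theorem bs_le_sp (h : Dsc f G) : bs f G r ≤ sp G := by
  refine Submodule.span_mono fun x hx => ?_
  exact ((mem_bl h).1 (Finset.mem_coe.1 hx)).1

theorem bs_mono (h : Dsc f G) {r' : ℝ} (hr : r ≤ r') : bs f G r ≤ bs f G r' :=
  Submodule.span_mono (Finset.coe_subset.2 (bl_mono h hr))

end rational

section both

variable {A : Type} [AddCommGroup A] [Module ℚ A] {E : Type} [NormedAddCommGroup E]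
  [NormedSpace ℝ E]
variable {f : A →+ E} {G H : AddSubgroup A} {r : ℝ} {x y : A}

theorem f_rat (f : A →+ E) (c : ℚ) (x : A) : f (c • x) = (c : ℝ) • f x := by
  have h := map_ratCast_smul f ℚ ℝ c x
  rwa [Rat.cast_id] at h

theorem Φ_rat (Φ : A →+ ℂ) (c : ℚ) (x : A) : Φ (c • x) = (c : ℂ) * Φ x := by
  have h := map_ratCast_smul Φ ℚ ℂ c x
  rwa [Rat.cast_id, smul_eq_mul] at h

/-- an element of size `0` is `0` -/
theorem eq_zero_of_norm (h : Dsc f G) (hx : x ∈ G) (h0 : ‖f x‖ = 0) : x = 0 := by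
  by_contra hne
  refine Set.infinite_of_injective_forall_mem (f := fun n : ℕ => n • x) ?_ ?_ (h 0)
  · intro m n hmn
    have h1 : ((m : ℚ) - n) • x = 0 := by
      have h2 : m • x = n • x := hmn
      rw [sub_smul, Nat.cast_smul_eq_nsmul, Nat.cast_smul_eq_nsmul, h2, sub_self]
    have h2 := (smul_eq_zero.1 h1).resolve_right hne
    exact_mod_cast sub_eq_zero.1 h2
  · intro n
    refine ⟨G.nsmul_mem hx n, ?_⟩
    rw [norm_f_nat, h0, mul_zero]

theorem norm_pos (h : Dsc f G) (hx : x ∈ G) (h0 : x ≠ 0) : 0 < ‖f x‖ :=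
  lt_of_le_of_ne (norm_nonneg _) fun h1 => h0 (eq_zero_of_norm h hx h1.symm)

end both

/-- the ratio `r_k / r_l` where `r_k = (k - t₁) / (k - t₂)` -/
noncomputable def lam (t₁ t₂ k l : ℝ) : ℝ := ((k - t₁) / (k - t₂)) / ((l - t₁) / (l - t₂))

/-- all the ratios of a block -/
def Rat4 (W : Finset ℝ) (t₁ t₂ : ℝ) : Set ℝ :=
  {q | ∃ k ∈ W, ∃ l ∈ W, k ≠ t₁ ∧ k ≠ t₂ ∧ l ≠ t₁ ∧ l ≠ t₂ ∧ q = lam t₁ t₂ k l}

/-- `w` is a root of a nonzero integer polynomial of degree `≤ e` with coefficients `≤ A` -/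
def Alg (e A : ℕ) (w : ℝ) : Prop :=
  ∃ p : Polynomial ℤ, p ≠ 0 ∧ p.natDegree ≤ e ∧ (∀ i, |p.coeff i| ≤ (A : ℤ)) ∧
    Polynomial.aeval w p = 0

/-- the number of the distances of `P` (with the distance `0`) -/
noncomputable def nd (P : Finset ℂ) : ℕ := ((P ×ˢ P).image fun p => ‖p.1 - p.2‖).card

end Pool.Agent.PLX
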