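import Pool.Agent.Helper10_PLX.LIO
import Pool.Agent.Helper13_PLX.LIB
import Pool.Agent.Helper13_PLX.PRC
import Pool.Agent.Helper14_PLX.MIK
import Pool.Agent.Helper14_PLX.PSI
import Pool.Agent.Helper16_PLX.BC2
import Pool.Agent.Helper16_PLX.THN
import Pool.Agent.Helper19_PLX.CS1
import Pool.Agent.Helper19_PLX.PRX
import Pool.Agent.Helper23_PLX.SEP
import Pool.Agent.Helper26_PLX.MUL
import Pool.Agent.Helper2_PLX.ENG
import Pool.Agent.Helper2_PLX.THK
import Pool.Agent.Helper30_PLX.LAD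
import Pool.Agent.Helper32_PLX.SLP
import Pool.Agent.Helper32_PLX.THS
import Pool.Agent.Helper36_PLX.DMN
import Pool.Agent.Helper36_PLX.FLD
import Pool.Agent.Helper38_PLX.BKS
import Pool.Agent.Helper39_PLX.FNL
import Pool.Agent.Helper39_PLX.STR
import Pool.Agent.Helper42_PLX.KIL
import Pool.Agent.Helper46_PLX.GRU
import Pool.Agent.Helper53_PLX.BCK
import Pool.Agent.Helper53_PLX.COP
import Pool.Agent.Helper59_PLX.BC1
import Pool.Agent.Helper59_PLX.PRO
import Pool.Agent.Helper60_PLX.FIF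
import Pool.Agent.Helper66_PLX.DPL
import Pool.Agent.Helper67_PLX.PKV
import Pool.Agent.Helper67_PLX.PRF
import Pool.Agent.Helper67_PLX.SOL
import Pool.Agent.Helper67_PLX.TRA
import Pool.Agent.Helper70_PLX.POL
import Pool.Agent.Helper74_PLX.COV
import Pool.Agent.Helper74_PLX.LMS
import Pool.Agent.Helper75_PLX.RNK
import Pool.Agent.Helper77_PLX.EXS
import Pool.Agent.Helper7_PLX.SLC
import Pool.Agent.Helper7_PLX.TKG
import Pool.Agent.Helper81_PLX.BLF
import Pool.Agent.Helper81_PLX.TPL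
import Pool.Agent.Helper86_PLX.WRD
import Pool.Agent.Helper92_PLX.PRP
import Pool.Agent.Helper94_PLX.FUN

/-!
Squad PLX (MP_1fc801_co): assembly of the rows which are used by the covering theorem
(`Pool/Agent/Helper61_FRE/CVU.lean`): the structure theorem for `T`-proper maps `STR` and the
auxiliary statements.
-/

set_option autoImplicit false

namespace Pool.Agent.PLX

theorem rows : CovStmt ∧ SlpStmt ∧ StrStmt ∧ EngStmt ∧ PrpStmt ∧ ClsStmt ∧ LadStmt ∧ RotStmt := by
  have hpkv : PkvStmt := Pool.Agent.PLX.H67.pkv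
  have hcov : CovStmt := Pool.Agent.PLX.H74.cov hpkv
  have hsep : SepStmt := Pool.Agent.PLX.H23.sep hpkv
  have hrnk : RnkStmt := Pool.Agent.PLX.H75.rnk
  have hgru : GruStmt := Pool.Agent.PLX.H46.gru hrnk
  have hsol : SolStmt := Pool.Agent.PLX.H67.sol
  have hslc : SlcStmt := Pool.Agent.PLX.H7.slc hsol
  have htra : TraStmt := Pool.Agent.PLX.H67.tra
  have hexs : ExsStmt := Pool.Agent.PLX.H77.exs
  have hlms : LmsStmt := Pool.Agent.PLX.H74.lms
  have hmul : MulStmt := Pool.Agent.PLX.H26.mul htra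
  have hwrd : WrdStmt := Pool.Agent.PLX.H86.wrd
  have hgen : GenStmt := Pool.Agent.PLX.H53.gen
  have hfif : FifStmt := Pool.Agent.PLX.H60.fif
  have hpol : PolStmt := Pool.Agent.PLX.H70.pol hsep
  have hlib : LibStmt := Pool.Agent.PLX.H13.lib
  have hlio : LioStmt := Pool.Agent.PLX.H10.lio hlib
  have hkil : KilStmt := Pool.Agent.PLX.H42.kil
  have hfld : FldStmt := Pool.Agent.PLX.H36.fld hgen
  have hfun : FunStmt := Pool.Agent.PLX.H94.fun'
  have hbc2 : Bc2Stmt := Pool.Agent.PLX.H16.bc2 hgen hfif hlio hkil hfld hfun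
  have hpsi : PsiStmt := Pool.Agent.PLX.H14.psi
  have hprf : PrfStmt := Pool.Agent.PLX.H67.prf
  have hprc : PrcStmt := Pool.Agent.PLX.H13.prc hsol
  have hpro : ProStmt := Pool.Agent.PLX.H59.pro htra hpsi hprf hprc
  have hbc1 : Bc1Stmt := Pool.Agent.PLX.H59.bc1 hlms hmul hwrd hpol
  have hbck : BckStmt := Pool.Agent.PLX.H53.bck hsep hexs hbc1 hpro hbc2
  have hmik : MikStmt := Pool.Agent.PLX.H14.mik hpkv hgru
  have hblf : BlfStmt := Pool.Agent.PLX.H81.blf
  have hdmn : DmnStmt := Pool.Agent.PLX.H36.dmn hcov hslc hgru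
  have hdpl : DplStmt := Pool.Agent.PLX.H66D.dpl hcov hslc hgru
  have hrts : RtsStmt := Pool.Agent.PLX.H53.rts
  have hfnl : FnlStmt := Pool.Agent.PLX.H39.fnl hpkv hgru
  have htpl : TplStmt := Pool.Agent.PLX.H81.tpl hrts hfnl
  have hcs1 : Cs1Stmt := Pool.Agent.PLX.H19.cs1
  have hbks : BksStmt := Pool.Agent.PLX.H38.bks hcov hmik hblf hbck htpl hcs1
  have hths : ThsStmt := Pool.Agent.PLX.H32.ths hcov hdmn hdpl hbks
  have hthk : ThkStmt := Pool.Agent.PLX.H2.thk hths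
  have htkg : TkgStmt := Pool.Agent.PLX.H7.tkg
  have hthn : ThnStmt := Pool.Agent.PLX.H16.thn hcov
  have hstr : StrStmt := Pool.Agent.PLX.H39.str hthk htkg hthn
  have heng : EngStmt := Pool.Agent.PLX.H2.eng
  have hprp : PrpStmt := Pool.Agent.PLX.H92.prp
  have hslp : SlpStmt := Pool.Agent.PLX.H32.slp hsol
  have hcls : ClsStmt := Pool.Agent.PLX.H53.cls
  have hrot : RotStmt := Pool.Agent.PLX.H53.rot
  have hprx : PrxStmt := Pool.Agent.PLX.H19.prx
  have hlad : LadStmt := Pool.Agent.PLX.H30.lad hcov hprx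
  exact ⟨hcov, hslp, hstr, heng, hprp, hcls, hlad, hrot⟩

end Pool.Agent.PLX
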