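import Pool.Agent.PLX.Defs

/-!
Squad PLX (MP_1fc801_co): further definitions and facts.
-/

set_option autoImplicit false

namespace Pool.Agent.PLX

open Module

section cut

variable {A : Type} [AddCommGroup A] [Module ℚ A]

/-- the part of `G` in a rational subspace -/
def cut (G : AddSubgroup A) (M : Submodule ℚ A) : AddSubgroup A := G ⊓ M.toAddSubgroup

variable {G H : AddSubgroup A} {M : Submodule ℚ A} {x : A}

theorem mem_cut : x ∈ cut G M ↔ x ∈ G ∧ x ∈ M := Iff.rfl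

theorem cut_le : cut G M ≤ G := inf_le_left

/-- the group `G` inside a rational subspace, as a subgroup of that space -/
def Gr (G : AddSubgroup A) (M : Submodule ℚ A) : AddSubgroup M := G.comap M.subtype.toAddMonoidHom

theorem mem_Gr {y : M} : y ∈ Gr G M ↔ (y : A) ∈ G := Iff.rfl

variable {E : Type} [NormedAddCommGroup E]

/-- the size on a rational subspace -/
def fr (f : A →+ E) (M : Submodule ℚ A) : M →+ E := f.comp M.subtype.toAddMonoidHom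

theorem fr_apply (f : A →+ E) (M : Submodule ℚ A) (y : M) : fr f M y = f y := rfl

variable {f : A →+ E}

theorem Dsc.cut (h : Dsc f G) (M : Submodule ℚ A) : Dsc f (cut G M) := h.mono cut_le

theorem Dsc.fr (h : Dsc f G) (M : Submodule ℚ A) : Dsc (fr f M) (Gr G M) := fun r =>
  Set.Finite.of_finite_image (f := Subtype.val)
    ((h r).subset (by rintro _ ⟨y, hy, rfl⟩; exact ⟨hy.1, hy.2⟩)) Subtype.val_injective.injOn

theorem bl_fr (h : Dsc f G) (M : Submodule ℚ A) (r : ℝ) :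
    (bl (PLX.fr f M) (Gr G M) r).map ⟨Subtype.val, Subtype.val_injective⟩ =
      bl f (PLX.cut G M) r := by
  ext x
  rw [Finset.mem_map, mem_bl (h.cut M)]
  constructor
  · rintro ⟨y, hy, rfl⟩
    have h1 := (mem_bl (h.fr M)).1 hy
    exact ⟨⟨h1.1, y.2⟩, h1.2⟩
  · rintro ⟨⟨h1, h2⟩, h3⟩
    exact ⟨⟨x, h2⟩, (mem_bl (h.fr M)).2 ⟨h1, h3⟩, rfl⟩

theorem cnt_fr (h : Dsc f G) (M : Submodule ℚ A) (r : ℝ) :
    cnt (PLX.fr f M) (Gr G M) r = cnt f (PLX.cut G M) r := by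
  unfold cnt
  rw [← bl_fr h M r, Finset.card_map]

end cut

/-- any two subspaces of the family are complementary -/
def Two {A : Type} [AddCommGroup A] [Module ℚ A] (N : ℝ → Submodule ℚ A) (W : Finset ℝ) : Prop :=
  ∀ s ∈ W, ∀ t ∈ W, s ≠ t → IsCompl (N s) (N t)

/-- the images of the subspaces are on the lines with the given slopes -/
def Slo {A : Type} [AddCommGroup A] [Module ℚ A] (Φ : A →+ ℂ) (N : ℝ → Submodule ℚ A)
    (W : Finset ℝ) : Prop :=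
  ∀ t ∈ W, ∀ x ∈ N t, (Φ x).im = t * (Φ x).re

/-- `S` is the operator of the pair `k, l` on the line `t₁`: `y - z ∈ N k`, `S y - z ∈ N l` for
some `z ∈ N t₂` -/
def IsS {A : Type} [AddCommGroup A] [Module ℚ A] (N : ℝ → Submodule ℚ A) (t₁ t₂ k l : ℝ)
    (S : Module.End ℚ (N t₁)) : Prop :=
  ∀ y : N t₁, ∃ z ∈ N t₂, (y : A) - z ∈ N k ∧ (S y : A) - z ∈ N l

/-- the operators of a block with their eigenvalues -/
def Qs {A : Type} [AddCommGroup A] [Module ℚ A] (N : ℝ → Submodule ℚ A) (W : Finset ℝ)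
    (t₁ t₂ : ℝ) (S : ℝ → ℝ → Module.End ℚ (N t₁)) : Set (Module.End ℚ (N t₁) × ℝ) :=
  {q | ∃ k ∈ W, ∃ l ∈ W, k ≠ t₁ ∧ k ≠ t₂ ∧ l ≠ t₁ ∧ l ≠ t₂ ∧ q = (S k l, lam t₁ t₂ k l)}

/-- `a` is an eigenfunctional of `q.1` with the eigenvalue `q.2` -/
def Eig {B : Type} [AddCommGroup B] [Module ℚ B] (a : B →ₗ[ℚ] ℝ) (q : Module.End ℚ B × ℝ) :
    Prop :=
  ∀ y : B, a (q.1 y) = q.2 * a y

theorem eig_adjoin {B : Type} [AddCommGroup B] [Module ℚ B] {a : B →ₗ[ℚ] ℝ}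
    {Q : Set (Module.End ℚ B × ℝ)} (h : ∀ q ∈ Q, Eig a q) :
    ∀ q ∈ Algebra.adjoin ℚ Q, Eig a q := by
  intro q hq
  induction hq using Algebra.adjoin_induction with
  | mem q hq => exact h q hq
  | algebraMap r =>
    intro y
    have h1 : (algebraMap ℚ (Module.End ℚ B × ℝ) r).1 = algebraMap ℚ (Module.End ℚ B) r := rfl
    have h2 : (algebraMap ℚ (Module.End ℚ B × ℝ) r).2 = algebraMap ℚ ℝ r := rfl
    rw [h1, h2, Module.algebraMap_end_apply, map_smul, Algebra.smul_def]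
  | add p q _ _ hp hq =>
    intro y
    rw [Prod.fst_add, Prod.snd_add, LinearMap.add_apply, map_add, hp y, hq y, add_mul]
  | mul p q _ _ hp hq =>
    intro y
    rw [Prod.fst_mul, Prod.snd_mul, Module.End.mul_apply, hp, hq, mul_assoc]

theorem eig_word {B : Type} [AddCommGroup B] [Module ℚ B] {a : B →ₗ[ℚ] ℝ}
    {Q : Set (Module.End ℚ B × ℝ)} (h : ∀ q ∈ Q, Eig a q) (l : List (Module.End ℚ B × ℝ))
    (hl : ∀ q ∈ l, q ∈ Q) : Eig a l.prod :=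
  eig_adjoin h _ (Subalgebra.list_prod_mem _ fun q hq => Algebra.subset_adjoin (hl q hq))

/-- `α` multiplies `x` in `V` with the denominator and the factor `≤ K` -/
def Mlt {B : Type} [AddCommGroup B] [Module ℚ B] {E : Type} [NormedAddCommGroup E] (f : B →+ E)
    (V : AddSubgroup B) (K : ℝ) (α : Module.End ℚ B) (x : B) : Prop :=
  ∃ c : ℕ, 1 ≤ c ∧ (c : ℝ) ≤ K ∧ c • α x ∈ V ∧ ‖f (c • α x)‖ ≤ K * ‖f x‖

theorem Mlt.mono {B : Type} [AddCommGroup B] [Module ℚ B] {E : Type} [NormedAddCommGroup E]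
    {f : B →+ E} {V : AddSubgroup B} {K K' : ℝ} {α : Module.End ℚ B} {x : B}
    (h : Mlt f V K α x) (hK : K ≤ K') : Mlt f V K' α x := by
  obtain ⟨c, h1, h2, h3, h4⟩ := h
  exact ⟨c, h1, h2.trans hK, h3, h4.trans (mul_le_mul_of_nonneg_right hK (norm_nonneg _))⟩

/-- a narrow family of lines -/
structure Nar {A : Type} [AddCommGroup A] [Module ℚ A] {E : Type} [NormedAddCommGroup E]
    (Φ : A →+ ℂ) (f : A →+ E) (G : AddSubgroup A) (N : ℝ → Submodule ℚ A) (W : Finset ℝ)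
    (j H : ℝ) : Prop where
  dsc : Dsc f G
  ppr : Ppr Φ f G 8
  hj : 3 ≤ j
  hH : 1 ≤ H
  slo : Slo Φ N W
  dis : ∀ s ∈ W, ∀ t ∈ W, s ≠ t → Disjoint (N s) (N t)
  lines : ∀ t ∈ W, j ≤ cnt f (cut G (N t)) 1
  narrow : ∃ a b : ℝ, (∀ t ∈ W, a ≤ t ∧ t ≤ b) ∧ 9 * ((cone Φ f G 8 a b).card : ℝ) ≤ H * j ^ 2

/-- the output of PRF for one line -/
def Fib {A : Type} [AddCommGroup A] [Module ℚ A] {E : Type} [NormedAddCommGroup E]
    (Φ : A →+ ℂ) (f : A →+ E) (G : AddSubgroup A) (M : Submodule ℚ A) (π : A →+ ℂ)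
    (t j : ℝ) : Prop :=
  ∃ σ : ℝ, (σ = 1 ∨ σ = -1) ∧ ∃ Y U : Finset A,
    (∀ y ∈ Y, y ∈ cut G M ∧ ‖f y‖ ≤ 1 ∧ 0 < (Φ y).re ∧ (π y).im = t * (π y).re ∧
      0 < σ * (π y).re) ∧
    Set.InjOn π Y ∧ (∀ u ∈ U, u ∈ cut G M ∧ ‖f u‖ ≤ 2 ∧ 0 < (Φ u).re ∧ π u = 0) ∧
    j ≤ 18 * ((Y.card : ℝ) * U.card)

/-- a good block of slopes -/
structure Blk {A : Type} [AddCommGroup A] [Module ℚ A] {E : Type} [NormedAddCommGroup E]
    (Φ : A →+ ℂ) (f : A →+ E) (G : AddSubgroup A) (N : ℝ → Submodule ℚ A) (W : Finset ℝ)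
    (e : ℕ) (ρ j B : ℝ) : Prop where
  dsc : Dsc f G
  ppr : Ppr Φ f G 8
  fin : FiniteDimensional ℚ A
  he : 1 ≤ e
  hρ0 : 0 < ρ
  hρ : ρ ≤ 1
  hj : 3 ≤ j
  hB : 1 ≤ B
  slo : Slo Φ N W
  two : Two N W
  dim : ∀ t ∈ W, finrank ℚ (N t) = e
  gen : ∀ t ∈ W, bs f (cut G (N t)) ρ = N t
  lines : ∀ t ∈ W, j ≤ cnt f (cut G (N t)) 1
  large : 5184 * B + 5 ≤ W.card
  narrow : ∃ a b : ℝ, (∀ t ∈ W, a ≤ t ∧ t ≤ b) ∧
    ((cone Φ f G 8 a b).card : ℝ) ≤ B * W.card * j ^ 2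

theorem Blk.nar {A : Type} [AddCommGroup A] [Module ℚ A] {E : Type} [NormedAddCommGroup E]
    {Φ : A →+ ℂ} {f : A →+ E} {G : AddSubgroup A} {N : ℝ → Submodule ℚ A} {W : Finset ℝ}
    {e : ℕ} {ρ j B : ℝ} (h : Blk Φ f G N W e ρ j B) : Nar Φ f G N W j (9 * B * W.card) := by
  have hW : (5 : ℝ) ≤ W.card := by
    have h1 := h.large
    have h2 := h.hB
    linarith
  refine ⟨h.dsc, h.ppr, h.hj, ?_, h.slo, fun s hs t ht hst => (h.two s hs t ht hst).disjoint,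
    h.lines, ?_⟩
  · have h1 := h.hB
    have h2 : (1 : ℝ) * 5 ≤ B * W.card := mul_le_mul h1 hW (by norm_num) (by linarith)
    nlinarith
  · obtain ⟨a, b, h1, h2⟩ := h.narrow
    refine ⟨a, b, h1, ?_⟩
    calc 9 * ((cone Φ f G 8 a b).card : ℝ) ≤ 9 * (B * W.card * j ^ 2) := by linarith
      _ = 9 * B * W.card * j ^ 2 := by ring

/-- the multipliers of a short vector -/
def Out {A : Type} [AddCommGroup A] {E : Type} [NormedAddCommGroup E] (Φ : A →+ ℂ) (f : A →+ E)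
    (G : AddSubgroup A) (e a : ℕ) (K : ℝ) (x : A) : Prop :=
  ∃ (w : Fin e → ℝ) (c : Fin e → ℕ), LinearIndependent ℚ w ∧ ∀ i, 1 ≤ c i ∧ (c i : ℝ) ≤ K ∧
    Alg e a (w i) ∧ ∃ y ∈ G, Φ y = (((c i : ℝ) * w i : ℝ) : ℂ) * Φ x ∧ ‖f y‖ ≤ K * ‖f x‖

/-- the structure theorem for the groups of rank at most `d` with the constant `C` -/
def Struc (d C : ℕ) : Prop :=
  ∀ (A : Type) [AddCommGroup A] [Module ℚ A] (E : Type) [NormedAddCommGroup E] [NormedSpace ℝ E]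
    (Φ : A →+ ℂ) (f : A →+ E) (G : AddSubgroup A) (Θ : Finset ℝ) (L j R : ℝ), Dsc f G →
      FiniteDimensional ℚ (sp G) → finrank ℚ (sp G) ≤ d → 2 ≤ L → L ^ C ≤ j → 0 < R →
      Ppr Φ f G (L ^ C * R) → (∀ t ∈ Θ, j ≤ cnt f (lp Φ G t) R) →
      (cnt f G R : ℝ) ≤ L * Θ.card * j ^ 2 →
      ∃ z : ℂ, z ≠ 0 ∧ (cnt f G R : ℝ) ≤ L ^ C * (cnt f (lz Φ G z) R : ℝ) ^ 2

/-- a second system with image at least as large, with the loss `M`, of rank `≤ d`, `T`-proper -/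
def Dom {A : Type} [AddCommGroup A] {E : Type} [NormedAddCommGroup E] (d : ℕ) (M T : ℝ)
    (Φ : A →+ ℂ) (f : A →+ E) (G : AddSubgroup A) : Prop :=
  ∃ (A' : Type) (_ : AddCommGroup A') (_ : Module ℚ A') (E' : Type) (_ : NormedAddCommGroup E')
    (_ : NormedSpace ℝ E') (Φ' : A' →+ ℂ) (f' : A' →+ E') (G' : AddSubgroup A'),
    Dsc f' G' ∧ FiniteDimensional ℚ (sp G') ∧ finrank ℚ (sp G') ≤ d ∧ Ppr Φ' f' G' T ∧
    (∀ x ∈ G, ∃ x' ∈ G', ‖f' x'‖ ≤ ‖f x‖ ∧ Φ' x' = Φ x) ∧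
    ∀ r : ℝ, 1 ≤ r → (cnt f' G' r : ℝ) ≤ M * cnt f G r

open Classical in
/-- the conclusion of the main theorem -/
def Rich (P : Finset ℂ) (c : ℝ) (a : ℕ) : Prop :=
  ∃ z : ℂ, z ≠ 0 ∧ ∃ p ∈ P, c * Real.sqrt P.card ≤
    (Real.log P.card) ^ a * (P.filter (fun q => q - p ∈ lin z)).card

end Pool.Agent.PLX
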