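import Pool.Agent.PLX.Base

/-!
Squad PLX (MP_1fc801_co), part A: packing, sums, one block.

THEOREM (end of part B).  For all `K` there are `ε, c > 0` and `a`: `P ⊂ ℂ` finite, `|P + P| ≤ K |P|`,
`P` has at most `ε |P|` distances; then some line has at least `c sqrt |P| / (log |P|)^a` points
of `P`.  (Through progressions with arbitrary complex steps and Freiman's theorem, squad FRE.)

SETTING.  `A` rational vector space, `G` additive subgroup, `f : A →+ E` additive map to a real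
normed space (size `‖f x‖`), `Φ : A →+ ℂ`.  Balls `bl f G r`, `cnt f G r`, `bs f G r` = rational
span of the ball, `lp Φ G t` = elements with image on the line of slope `t`, `cut G M = G ⊓ M`,
`Ppr Φ f G T`: `Φ` has no nonzero zero of size `≤ T` in `G`.  Files: `Defs.lean`, `Base.lean`.
The rows do not depend on each other: the statements named in `uses` are hypotheses of the
theorem of the row.  Many rows are the adaptation of a row of squad PLG (same name).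
-/

set_option autoImplicit false

namespace Pool.Agent.PLX

open Module

/-! ### Packing and growth -/

/-- ROW PKV (easy).  Packing.
PROOF.  Let `F` be the real span of `f '' M` in `E`; with a rational basis `b` of `M` every
`x ∈ M` is a rational combination of `b`, `f` is `ℚ`-linear (`f_rat`), so `F` is spanned by the
`f (b_i)` and `finrank ℝ F ≤ finrank ℚ M`.  Apply `Pool.Agent.FCM.card_le_of_separated` (file
`Pool.Agent.Helper53_FCM.Pac`, a landed theorem on finite dimensional normed spaces) to the image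
of `S` in `F` (`f` is injective on `S` since `δ > 0`); the base `1 + 2R/δ` is `≥ 1`.
(PLG has the same row for `A = ℂ`.) -/
def PkvStmt : Prop :=
  ∀ (A : Type) [AddCommGroup A] [Module ℚ A] (E : Type) [NormedAddCommGroup E] [NormedSpace ℝ E]
    (f : A →+ E) (M : Submodule ℚ A), FiniteDimensional ℚ M → ∀ (S : Finset A) (δ R : ℝ),
      0 < δ → 0 ≤ R → (∀ x ∈ S, x ∈ M ∧ ‖f x‖ ≤ R) →
      (∀ x ∈ S, ∀ y ∈ S, x ≠ y → δ ≤ ‖f (x - y)‖) →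
      (S.card : ℝ) ≤ (1 + 2 * R / δ) ^ finrank ℚ M

/-- ROW COV (easy), uses PKV.  Covering.
PROOF.  Let `S` be a maximal subset of `bl f V r` with `r' ≤ ‖f (x - y)‖` for different `x, y ∈ S`.
Every `x ∈ bl f V r` has an `s ∈ S` with `‖f (x - s)‖ ≤ r'`, so `x - s ∈ bl f V r'`:
`cnt f V r ≤ |S| cnt f V r'`.  PKV with `M = bs f V r` (finite dimensional: the span of a finite
set), `R = r`, `δ = r'`. -/
def CovStmt : Prop :=
  ∀ (A : Type) [AddCommGroup A] [Module ℚ A] (E : Type) [NormedAddCommGroup E] [NormedSpace ℝ E]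
    (f : A →+ E) (V : AddSubgroup A) (r r' : ℝ) (k : ℕ), Dsc f V → 0 ≤ r → 0 < r' →
      finrank ℚ (bs f V r) ≤ k → (cnt f V r : ℝ) ≤ (1 + 2 * r / r') ^ k * cnt f V r'

/-- ROW SEP (easy), uses PKV.  PROOF.  PKV with `S = bl f V r`, `M = bs f V r`. -/
def SepStmt : Prop :=
  ∀ (A : Type) [AddCommGroup A] [Module ℚ A] (E : Type) [NormedAddCommGroup E] [NormedSpace ℝ E]
    (f : A →+ E) (V : AddSubgroup A) (r δ : ℝ) (k : ℕ), Dsc f V → 0 ≤ r → 0 < δ →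
      (∀ x ∈ V, x ≠ 0 → δ ≤ ‖f x‖) → finrank ℚ (bs f V r) ≤ k →
      (cnt f V r : ℝ) ≤ (1 + 2 * r / δ) ^ k

/-- ROW RNK (easy-medium).  The real rank of a discrete group is at least the rational rank.
PROOF.  Take `x₁, .., x_k ∈ bl f V r` rationally independent, `k = finrank ℚ (bs f V r)`.
Let `F` be the real span of `f '' bl f V r`, `k' = finrank ℝ F`, suppose `k' < k`.  Let `δ > 0` be
smaller than the sizes of the finitely many nonzero elements of `bl f V 1` (`norm_pos`) and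
`δ ≤ 1`; so every nonzero element of `V` has size `≥ δ`.  The `(N+1)^k` elements `∑ n_i x_i`,
`0 ≤ n_i ≤ N`, are different, of size `≤ k N r`, and their images in `F` are `δ`-separated, so
`(N+1)^k ≤ (1 + 2 k N r/δ)^k'` (`Pool.Agent.FCM.card_le_of_separated`), false for large `N`. -/
def RnkStmt : Prop :=
  ∀ (A : Type) [AddCommGroup A] [Module ℚ A] (E : Type) [NormedAddCommGroup E] [NormedSpace ℝ E]
    (f : A →+ E) (V : AddSubgroup A) (r : ℝ), Dsc f V →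
      finrank ℚ (bs f V r) ≤ finrank ℝ (Submodule.span ℝ (f '' (bl f V r : Set A)))

/-- ROW GRU (medium-strong), uses RNK.  Growth.
PROOF.  `M = bs f V ρ`, `F` = real span of `f '' bl f V ρ`; `dim F = k` (`≥ k` by RNK, `≤ k` since
`M` has a rational basis in the ball and `f` is `ℚ`-linear).  Take a real basis of `F` among the
`f x_i`, `x_i ∈ bl f V ρ`.  So every `w ∈ F` has an `x ∈ V ⊓ M` with `‖w - f x‖ ≤ k ρ`
(`w = ∑ c_i f x_i`, `x = ∑ ⌊c_i⌋ x_i`).  Let `Y ⊂ {x ∈ bl f V (R/2) : x ∈ M}` be maximal with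
`2r < ‖f (y - y')‖` for different `y, y' ∈ Y`.  The sets `y + bl f V r` are disjoint and contained
in `bl f V R` (`r ≤ R/8`): `|Y| cnt f V r ≤ cnt f V R`.  Every `w ∈ F` with `‖w‖ ≤ R/2 - kρ` is
at distance `≤ 2r + kρ` of some `f y`, `y ∈ Y`; volumes in `F` (`MeasureTheory.Measure.addHaar`,
`addHaar_closedBall`): `(R/2 - kρ)^k ≤ |Y| (2r + kρ)^k`.  Here `kρ ≤ k r ≤ R/8`, so
`R/2 - kρ ≥ R/4`, `2r + kρ ≤ (k+2) r`: `R^k ≤ |Y| (4 (k+2) r)^k`.  (`k = 0`: trivial, `V` has only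
one element of size `≤ r`.)
(PLG row GRO is the case `R = 1`, `V = G`; the hypothesis that the elements of size `≤ r` are in
`M` is not needed in this argument but it is available.) -/
def GruStmt : Prop :=
  ∀ (A : Type) [AddCommGroup A] [Module ℚ A] (E : Type) [NormedAddCommGroup E] [NormedSpace ℝ E]
    (f : A →+ E) (V : AddSubgroup A) (k : ℕ) (ρ r R : ℝ), Dsc f V → 0 < ρ → ρ ≤ r →
      8 * (k + 1) * r ≤ R → finrank ℚ (bs f V ρ) = k → bs f V r ≤ bs f V ρ →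
      R ^ k * (cnt f V r : ℝ) ≤ (4 * (k + 2) * r) ^ k * cnt f V R

/-! ### Solymosi sums -/

/-- ROW SOL (easy).  Sums of points of consecutive lines are different.
PROOF.  `t_i * (x+y).re < (x+y).im < t_(i+1) * (x+y).re`.  If `i < i'` then `t_(i+1) ≤ t_(i')`
(monotonicity along `i+1 ≤ i' ≤ n`), contradiction to `x + y = x' + y'`; so `i = i'` and
`x - x' = y' - y` is on the lines of slopes `t_i ≠ t_(i+1)`, so it is `0` (`eq_zero_of_slopes`). -/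
def SolStmt : Prop :=
  ∀ (n : ℕ) (t : ℕ → ℝ), (∀ i < n, t i < t (i + 1)) → ∀ i i' : ℕ, i < n → i' < n →
    ∀ x y x' y' : ℂ, x.im = t i * x.re → 0 < x.re → y.im = t (i + 1) * y.re → 0 < y.re →
      x'.im = t i' * x'.re → 0 < x'.re → y'.im = t (i' + 1) * y'.re → 0 < y'.re →
      x + y = x' + y' → i = i' ∧ x = x' ∧ y = y'

/-- ROW SLC (easy-medium), uses SOL.
PROOF.  Sort `Θ` (`Finset.orderEmbOfFin`), `t_0 < .. < t_n`, `n + 1 = |Θ|` (if `|Θ| ≤ 1` the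
left side is `≤ 0`), `S_i = ps Φ f (lp Φ G t_i) r` has `(cnt - 1)/2 ≥ cnt/3 ≥ q/3` elements
(`card_ps_lp`, `cnt ≥ 3`).  The map `(i, x, y) ↦ x + y` is injective into `bl f G (2r)`: SOL for
the images gives `i = i'`, `Φ x = Φ x'`, `Φ y = Φ y'`, and `x - x'` has size `≤ 2r`, so it is `0`
(`Ppr`).  So `n (q/3)² ≤ cnt f G (2r)`. -/
def SlcStmt : Prop :=
  ∀ (A : Type) [AddCommGroup A] [Module ℚ A] (E : Type) [NormedAddCommGroup E] [NormedSpace ℝ E]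
    (Φ : A →+ ℂ) (f : A →+ E) (G : AddSubgroup A) (Θ : Finset ℝ) (r q : ℝ), Dsc f G → 0 ≤ r →
      3 ≤ q → Ppr Φ f G (2 * r) → (∀ t ∈ Θ, q ≤ cnt f (lp Φ G t) r) →
      ((Θ.card : ℝ) - 1) * q ^ 2 ≤ 9 * cnt f G (2 * r)

/-! ### Transfer and the operators of a block -/

/-- ROW TRA (medium-strong).  Transfer.
PROOF.  Write `V_i = cut G (N t_i)`.  `x = 0` is trivial (`c = 1`).  `x ≠ 0`: `(Φ x).re ≠ 0` (`Ppr`,
size `≤ 1`, slope); by symmetry `(Φ x).re > 0`.  `S_i = ps Φ f V_i 1` has `≥ j/3` elements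
(`card_ps`).
(1) `B = S₂ + S₃` has `|S₂||S₃| ≥ j²/9` elements (`N t₂`, `N t₃` are disjoint); `S₁ + B` is
contained in the cone (size `≤ 3`, real part of the image positive, slope between `a` and `b`), so
`|S₁ + B| ≤ H j²/9 ≤ H |B|`.  Ruzsa's covering lemma (`Finset.ruzsa_covering_add`):
`S₁ ⊂ F + (B - B)` with `|F| ≤ H`.
(2) If `x' ∈ V₁`, `(Φ x').re > 0` and `‖f x'‖ (H+1) ≤ 1` then the `⌊H⌋ + 1` multiples `n x'`,
`1 ≤ n ≤ ⌊H⌋ + 1`, are in `S₁`, two of them are in the same translate: there is `1 ≤ c ≤ H` with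
`c x' = y' + z'`, `y' ∈ V₂`, `z' ∈ V₃`, `‖f y'‖, ‖f z'‖ ≤ 4` (an element of `(B - B) - (B - B)`).
(3) By (2) for `x' = x` there is a least `c₀ ≥ 1` with `c₀ x = y + z`, `y ∈ V₂`, `z ∈ V₃`, and
`c₀ ≤ H`; every integer `c` with `c x ∈ V₂ + V₃` is a multiple of `c₀` (the remainder of the
division by `c₀` has the same property).
(4) Let `m = ⌊1/((H+1) ‖f x‖)⌋ ≥ 1`, so `m ≥ 1/(2 (H+1) ‖f x‖)`.  (2) for `x' = m x`:
`c m x = y' + z'`, `c m = c₀ q`, so `y' = q y`, `z' = q z` (the sum `N t₂ + N t₃` is direct), and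
`‖f y‖ = ‖f y'‖ / q ≤ 4 c₀/(c m) ≤ 4 H/m ≤ 8 H (H+1) ‖f x‖ ≤ 16 H² ‖f x‖`; the same for `z`.
(PLG row TRA is `A = ℂ`, `Φ = id`.) -/
def TraStmt : Prop :=
  ∀ (A : Type) [AddCommGroup A] [Module ℚ A] (E : Type) [NormedAddCommGroup E] [NormedSpace ℝ E]
    (Φ : A →+ ℂ) (f : A →+ E) (G : AddSubgroup A) (N : ℝ → Submodule ℚ A) (W : Finset ℝ)
    (j H t₁ t₂ t₃ : ℝ), Nar Φ f G N W j H → t₁ ∈ W → t₂ ∈ W → t₃ ∈ W →
      t₁ ≠ t₂ → t₁ ≠ t₃ → t₂ ≠ t₃ → ∀ x ∈ cut G (N t₁), ‖f x‖ * (H + 1) ≤ 1 →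
      ∃ c : ℕ, 1 ≤ c ∧ (c : ℝ) ≤ H ∧ ∃ y ∈ cut G (N t₂), ∃ z ∈ cut G (N t₃), c • x = y + z ∧
        ‖f y‖ ≤ 16 * H ^ 2 * ‖f x‖ ∧ ‖f z‖ ≤ 16 * H ^ 2 * ‖f x‖

/-- ROW EXS (easy-medium).  Existence of the operators.
PROOF.  `T` = projection onto `N t₂` along `N k` (`Submodule.linearProjOfIsCompl`), `U` = projection
onto `N t₁` along `N l`; `S y = U (T y)`, `z = T y`: `y - T y ∈ N k`, `z - U z ∈ N l`. -/
def ExsStmt : Prop :=
  ∀ (A : Type) [AddCommGroup A] [Module ℚ A] (N : ℝ → Submodule ℚ A) (W : Finset ℝ)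
    (t₁ t₂ k l : ℝ), Two N W → t₁ ∈ W → t₂ ∈ W → k ∈ W → l ∈ W → k ≠ t₂ → l ≠ t₁ →
      ∃ S : Module.End ℚ (N t₁), IsS N t₁ t₂ k l S

/-- ROW LMS (easy).  The eigenvalue.
PROOF.  `z` from `IsS`.  `(Φ y).im = t₁ a`, `(Φ z).im = t₂ b` with `a = (Φ y).re`, `b = (Φ z).re`, and
`y - z ∈ N k`: `t₁ a - t₂ b = k (a - b)`, so `b (k - t₂) = a (k - t₁)`.  In the same way with
`a' = (Φ (S y)).re`: `b (l - t₂) = a' (l - t₁)`.  So `a' = lam t₁ t₂ k l * a`, and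
`Φ (S y) = a' (1 + i t₁)`, `Φ y = a (1 + i t₁)` (`eq_of_re`). -/
def LmsStmt : Prop :=
  ∀ (A : Type) [AddCommGroup A] [Module ℚ A] (Φ : A →+ ℂ) (N : ℝ → Submodule ℚ A)
    (W : Finset ℝ) (t₁ t₂ k l : ℝ) (S : Module.End ℚ (N t₁)), Slo Φ N W → t₁ ∈ W → t₂ ∈ W →
      k ∈ W → l ∈ W → k ≠ t₁ → k ≠ t₂ → l ≠ t₁ → l ≠ t₂ → IsS N t₁ t₂ k l S →
      ∀ y : N t₁, Φ (S y : A) = ((lam t₁ t₂ k l : ℝ) : ℂ) * Φ (y : A)

/-- ROW MUL (medium), uses TRA.  The operators have bounded denominators and norms.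
PROOF.  `y₀ := z` from `IsS` for `x`: `x - y₀ ∈ N k`, `S x - y₀ ∈ N l`, `y₀ ∈ N t₂`.  TRA for
`(t₁, k, t₂)`: `c x = w + z`, `w ∈ cut G (N k)`, `z ∈ cut G (N t₂)`.  `c x - c y₀ ∈ N k`, so
`z - c y₀ = (c x - c y₀) - w ∈ N k ⊓ N t₂ = 0`: `z = c y₀`.  `‖f z‖ ≤ 16 H² ‖f x‖`, so
`‖f z‖ (H+1) ≤ 1`.  TRA for `(t₂, l, t₁)`: `c' z = w' + y`, `w' ∈ N l`, `y ∈ cut G (N t₁)`; and
`c c' (S x) - c' z = c c' (S x - y₀) ∈ N l`, so `y - c c' S x ∈ N l ⊓ N t₁ = 0`.  So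
`c c' S x = y ∈ G`, `1 ≤ c c' ≤ H² ≤ 256 H⁴`, `‖f y‖ ≤ (16 H²)² ‖f x‖`.  (If `k = l` use the same
argument; `k, l ≠ t₁, t₂`.) -/
def MulStmt : Prop :=
  ∀ (A : Type) [AddCommGroup A] [Module ℚ A] (E : Type) [NormedAddCommGroup E] [NormedSpace ℝ E]
    (Φ : A →+ ℂ) (f : A →+ E) (G : AddSubgroup A) (N : ℝ → Submodule ℚ A) (W : Finset ℝ)
    (j H t₁ t₂ k l : ℝ) (S : Module.End ℚ (N t₁)), Nar Φ f G N W j H → t₁ ∈ W → t₂ ∈ W →
      k ∈ W → l ∈ W → t₁ ≠ t₂ → k ≠ t₁ → k ≠ t₂ → l ≠ t₁ → l ≠ t₂ → IsS N t₁ t₂ k l S →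
      ∀ x ∈ Gr G (N t₁), 256 * H ^ 4 * ‖f x‖ ≤ 1 →
      Mlt (fr f (N t₁)) (Gr G (N t₁)) (256 * H ^ 4) S x

/-! ### Abstract rows on one line `B` -/

/-- ROW WRD (easy).  Words.  PROOF.  Induction on the list: for `q :: l` first apply `l.prod.1`
(`y = c • l.prod.1 x`, `‖f y‖ ≤ K ^ l.length ‖f x‖`, so `K ‖f y‖ ≤ 1`), then `q.1` to `y`. -/
def WrdStmt : Prop :=
  ∀ (B : Type) [AddCommGroup B] [Module ℚ B] (E : Type) [NormedAddCommGroup E] [NormedSpace ℝ E]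
    (f : B →+ E) (V : AddSubgroup B) (Q : Set (Module.End ℚ B × ℝ)) (K : ℝ), 1 ≤ K →
      (∀ q ∈ Q, ∀ x ∈ V, K * ‖f x‖ ≤ 1 → Mlt f V K q.1 x) →
      ∀ l : List (Module.End ℚ B × ℝ), (∀ q ∈ l, q ∈ Q) → ∀ x ∈ V,
        K ^ (l.length + 1) * ‖f x‖ ≤ 1 → Mlt f V (K ^ l.length) l.prod.1 x

/-- ROW GEN (medium).  Short words generate.  (Word for word the row GEN of PLG.)
PROOF.  `U_m` = rational span of the products of the lists of length `≤ m` of elements of `Q`, so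
`U_0 = ℚ`, `U_m ≤ U_(m+1)`, `U_(m+1) = U_m + Q U_m`.  If `U_(m+1) = U_m` then `U_m` is closed under
the multiplication by `Q`, contains `1`, so it is the whole algebra.  Otherwise the dimension grows
by at least `1`: so `U_e` is the whole algebra (dimension `e`).  The products of the lists of length
`≤ e` span it: choose a basis among them (`exists_linearIndependent`, reindex by `Fin e`). -/
def GenStmt : Prop :=
  ∀ (Q : Set ℝ) (e : ℕ), FiniteDimensional ℚ (Algebra.adjoin ℚ Q) →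
    finrank ℚ (Algebra.adjoin ℚ Q) = e →
    ∃ w : Fin e → ℝ, LinearIndependent ℚ w ∧
      ∀ i, ∃ l : List ℝ, l.length ≤ e ∧ (∀ q ∈ l, q ∈ Q) ∧ w i = l.prod

/-- ROW FIF (easy-medium).  The field of the eigenvalues is finite over `ℚ`.
PROOF.  The set of the real numbers `w` which occur in a pair `q = (α, w) ∈ adjoin ℚ Q` contains
`adjoin ℚ (Prod.snd '' Q)` (`AlgHom.map_adjoin` for `Prod.snd`, or `Algebra.adjoin_induction`).
For such `w`: `w * a x = a (α x)` (`eig_adjoin`).  So `w ↦ w * a x` is an injective `ℚ`-linear map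
of `adjoin ℚ (Prod.snd '' Q)` into the range of `a`, which has dimension `≤ finrank ℚ B`. -/
def FifStmt : Prop :=
  ∀ (B : Type) [AddCommGroup B] [Module ℚ B] (Q : Set (Module.End ℚ B × ℝ)) (a : B →ₗ[ℚ] ℝ)
    (x : B), FiniteDimensional ℚ B → (∀ q ∈ Q, Eig a q) → a x ≠ 0 →
      FiniteDimensional ℚ (Algebra.adjoin ℚ (Prod.snd '' Q)) ∧
      finrank ℚ (Algebra.adjoin ℚ (Prod.snd '' Q)) ≤ finrank ℚ B

/-- ROW POL (medium), uses SEP.  Integer equations of bounded height.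
PROOF.  `x ≠ 0`, `t = ‖f x‖ > 0` is the smallest size of a nonzero element of `V`.  For `q ≤ e` let
`y_q = c_q α^q x ∈ V`, `1 ≤ c_q ≤ K`, `‖f y_q‖ ≤ K t`.  Let `N = ⌊(3 (e+1) K)^e⌋`.  The elements
`∑ n_q y_q`, `0 ≤ n_q ≤ N` (`n : Fin (e+1) → ..`), are in `V` and have size `≤ (e+1) N K t`, so by
SEP (rank `≤ e`) there are at most `(1 + 2 (e+1) N K)^e ≤ (3 (e+1) K)^e (N+1)^e < (N+1)^(e+1)` of
them: two different `n ≠ n'` have the same sum.  Apply `a` (`a (α^q x) = w^q a x`, `a x ≠ 0`):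
`∑ (n_q - n'_q) c_q w^q = 0`, so `w` is a root of `∑ (n_q - n'_q) c_q X^q ≠ 0`, with coefficients
`≤ N K ≤ m`. -/
def PolStmt : Prop :=
  ∀ (B : Type) [AddCommGroup B] [Module ℚ B] (E : Type) [NormedAddCommGroup E] [NormedSpace ℝ E]
    (f : B →+ E) (V : AddSubgroup B) (a : B →ₗ[ℚ] ℝ) (e m : ℕ) (K w : ℝ) (α : Module.End ℚ B)
    (x : B), Dsc f V → FiniteDimensional ℚ B → finrank ℚ B ≤ e → 1 ≤ K → x ∈ V → a x ≠ 0 →
      (∀ y ∈ V, y ≠ 0 → ‖f x‖ ≤ ‖f y‖) → (∀ y, a (α y) = w * a y) →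
      (∀ q ≤ e, Mlt f V K (α ^ q) x) → (3 * ((e : ℝ) + 1) * K) ^ e * K ≤ m → Alg e m w

/-- ROW LIB (medium-strong).  Liouville's inequality in a real number field.
PROOF.  For every `i` let `p_i` be the polynomial of `Alg`, `a_i` its leading coefficient,
`1 ≤ |a_i| ≤ m` (so `m ≥ 1`), `D = ∏ |a_i| ≤ m^(k+1)`.  `a_i μ_i` is integral over `ℤ`
(`IsIntegral` of leading coefficient times root, Mathlib `isIntegral_leadingCoeff_smul`), so `D μ_i`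
is.  `β = ∑ n_i (D μ_i) ∈ F` is integral, `β ≠ 0`; `F` is a field (a finite dimensional domain over
`ℚ`; finite extension of `ℚ` of degree `k ≥ 1`).  Its norm is a nonzero rational integer, so
`1 ≤ |N β| = ∏_σ |σ β|` over the `k` embeddings `σ : F → ℂ` (`Algebra.norm_eq_prod_embeddings`).
Every `σ μ_i` is a complex root of `p_i`, so `|σ μ_i| ≤ 1 + m` (a root `z` of a polynomial with leading
coefficient of absolute value `≥ 1` and coefficients `≤ m`, of degree `≥ 1`, has `|z| ≤ 1 + m`).  So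
`|σ β| ≤ (k+1) N D (1+m) ≤ (k+1) N m^(k+1) (1+m)` for all `σ`; for `σ` = inclusion use
`|β| = D |∑ n_i μ_i| ≤ m^(k+1) |∑ n_i μ_i|`. -/
def LibStmt : Prop :=
  ∀ (F : Subalgebra ℚ ℝ) (k e m N : ℕ) (μ : Fin (k + 1) → ℝ) (n : Fin (k + 1) → ℤ),
    FiniteDimensional ℚ F → finrank ℚ F = k → (∀ i, μ i ∈ F ∧ Alg e m (μ i)) →
      (∀ i, |n i| ≤ (N : ℤ)) → ∑ i, (n i : ℝ) * μ i ≠ 0 →
      1 ≤ |∑ i, (n i : ℝ) * μ i| * (m : ℝ) ^ (k + 1) *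
        (((k : ℝ) + 1) * N * (1 + m) * (m : ℝ) ^ (k + 1)) ^ (k - 1)

/-- ROW LIO (medium), uses LIB.  Bounded relations.
PROOF.  `1 ∈ F` gives `k ≥ 1`, and `m ≥ 1`.  `|μ_i| ≤ 1 + m` (root bound, as in LIB).  The
`(N+1)^(k+1)` numbers `∑ n_i μ_i`, `0 ≤ n_i ≤ N`, are in an interval of length `2 (k+1) N (1+m)`; cut
it in `N^(k+1)` equal parts (`(N+1)^(k+1) > N^(k+1)`): two different `n, n'` have
`|∑ (n_i - n'_i) μ_i| ≤ 2 (k+1) (1+m) / N^k`.  If this number `b` were not `0`, LIB would give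
`1 ≤ b m^(k+1) ((k+1) N (1+m) m^(k+1))^(k-1) ≤ 2 ((k+1)(1+m) m^(k+1))^k / N`, so
`N ≤ 2 ((k+1)(1+m) m^(k+1))^k`, a contradiction. -/
def LioStmt : Prop :=
  ∀ (F : Subalgebra ℚ ℝ) (k e m N : ℕ) (μ : Fin (k + 1) → ℝ), FiniteDimensional ℚ F →
    finrank ℚ F = k → (∀ i, μ i ∈ F ∧ Alg e m (μ i)) →
      2 * ((k + 1) * (1 + m) * m ^ (k + 1)) ^ k < N →
      ∃ n : Fin (k + 1) → ℤ, n ≠ 0 ∧ (∀ i, |n i| ≤ (N : ℤ)) ∧ ∑ i, (n i : ℝ) * μ i = 0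

/-- ROW KIL (easy-medium).  A bounded relation between the eigenvalues is a relation between the
operators.
PROOF.  For `x ∈ bl f V ρ` let `c_i` be the denominator from `Mlt`, `C = ∏ c_i`, `1 ≤ C ≤ K^k`.
`v = C • ∑ n_i • (w_i).1 x = ∑ n_i (C/c_i) • (c_i • (w_i).1 x) ∈ V`, of size
`≤ k N K^k K ‖f x‖ ≤ k N K^(k+1) ρ ≤ 1`, and `a v = C (∑ n_i (w_i).2) a x = 0`; so `v = 0`, and
`∑ n_i • (w_i).1 x = 0` (`C ≠ 0`, rational vector space).  These `x` span `B`, so the first component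
`∑ n_i • (w_i).1` is `0`; the second is `0` by hypothesis. -/
def KilStmt : Prop :=
  ∀ (B : Type) [AddCommGroup B] [Module ℚ B] (E : Type) [NormedAddCommGroup E] [NormedSpace ℝ E]
    (f : B →+ E) (V : AddSubgroup B) (a : B →ₗ[ℚ] ℝ) (k N : ℕ) (K ρ : ℝ)
    (w : Fin k → Module.End ℚ B × ℝ) (n : Fin k → ℤ), Dsc f V → bs f V ρ = ⊤ → 1 ≤ K → 0 ≤ ρ →
      (∀ y ∈ V, ‖f y‖ ≤ 1 → a y = 0 → y = 0) → (∀ i, Eig a (w i)) →
      (∀ i, ∀ y ∈ V, ‖f y‖ ≤ ρ → Mlt f V K (w i).1 y) → (∀ i, |n i| ≤ (N : ℤ)) →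
      (k : ℝ) * N * K ^ (k + 1) * ρ ≤ 1 → ∑ i, (n i : ℝ) * (w i).2 = 0 → ∑ i, n i • w i = 0

/-- ROW FLD (medium), uses GEN.  The operators are determined by the eigenvalues.
PROOF.  GEN for `Prod.snd '' Q`: `μ_1, .., μ_k` independent, `μ_i` the product of a list of
length `≤ k` of second components of elements of `Q`; lift the lists to lists `l_i` of elements of `Q`,
`w_i = l_i.prod`, `w_i.2 = μ_i`.  Let `U` be the `ℚ`-span of the `w_i` in `End B × ℝ`.  Every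
`w = l.prod`, `l` a list of length `≤ k+1` of elements of `Q`, is in `U`: the relation between
`w, w_1, .., w_k` from the hypothesis, `n_0 w + ∑ n_i w_i = 0`, has `n_0 ≠ 0` (otherwise
`∑ n_i μ_i = 0`, so all `n_i = 0`).  So `1 ∈ U` (empty list) and `q w_i ∈ U` for `q ∈ Q`; the set of
the `q` with `q U ⊂ U` is a subalgebra containing `Q`, so `adjoin ℚ Q ⊂ U` (`q = q 1`).  If
`q = ∑ c_i w_i`, `q.2 = 0`, then `∑ c_i μ_i = 0`, all `c_i = 0`, `q = 0`. -/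
def FldStmt : Prop :=
  ∀ (B : Type) [AddCommGroup B] [Module ℚ B] (Q : Set (Module.End ℚ B × ℝ)) (k : ℕ),
    FiniteDimensional ℚ (Algebra.adjoin ℚ (Prod.snd '' Q)) →
    finrank ℚ (Algebra.adjoin ℚ (Prod.snd '' Q)) = k →
    (∀ w : Fin (k + 1) → Module.End ℚ B × ℝ,
      (∀ i, ∃ l : List (Module.End ℚ B × ℝ), l.length ≤ k + 1 ∧ (∀ q ∈ l, q ∈ Q) ∧
        w i = l.prod) → ∃ n : Fin (k + 1) → ℤ, n ≠ 0 ∧ ∑ i, n i • w i = 0) →
    ∀ q ∈ Algebra.adjoin ℚ Q, q.2 = 0 → q = 0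

/-- ROW FUN (medium-strong).  One functional implies dimension one.
PROOF.  `R = adjoin ℚ Q`.  `q ↦ q.2` is an injective ring homomorphism `R → ℝ` with image
`F = adjoin ℚ (Prod.snd '' Q)` (`AlgHom.map_adjoin`), so `R ≅ F` is a commutative domain.
`q ↦ q.1 x` is `ℚ`-linear and injective on `R` (`q.1 x = 0` gives `0 = a (q.1 x) = q.2 a x`, so
`q.2 = 0`), so `R` is finite dimensional of dimension `≤ finrank ℚ B`, so it is a field.  Let `U` be its image.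
If `U = B` we have `finrank F = finrank R = finrank B`.  Suppose `U ≠ B`.  `B` is a vector space
over the field `R` (`q • b = q.1 b`; `Module.compHom`), `U` a proper subspace, so there is an
`R`-linear `g : B → R`, `g ≠ 0`, `g = 0` on `U` (`Submodule.exists_le_ker_of_lt_top`).
`ψ b = (g b).2` is `ℚ`-linear, `Eig ψ q` for `q ∈ Q`, `ψ x = 0`, `ψ ≠ 0`: contradiction. -/
def FunStmt : Prop :=
  ∀ (B : Type) [AddCommGroup B] [Module ℚ B] (Q : Set (Module.End ℚ B × ℝ)) (a : B →ₗ[ℚ] ℝ)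
    (x : B), FiniteDimensional ℚ B → (∀ q ∈ Q, Eig a q) → a x ≠ 0 →
      (∀ q ∈ Algebra.adjoin ℚ Q, q.2 = 0 → q = 0) →
      (∀ ψ : B →ₗ[ℚ] ℝ, (∀ q ∈ Q, Eig ψ q) → ψ x = 0 → ψ = 0) →
      finrank ℚ (Algebra.adjoin ℚ (Prod.snd '' Q)) = finrank ℚ B

/-- ROW BC2 (medium), uses GEN FIF LIO KIL FLD FUN.  Independent words.
PROOF.  FIF: `F = adjoin ℚ (Prod.snd '' Q)` has dimension `k ≤ e`.  For `w_0, .., w_k` products of
lists `l_i` of length `≤ k+1 ≤ e+1`: `(w_i).2 ∈ F`, `Alg e m (w_i).2`, and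
`2((k+1)(1+m)m^(k+1))^k ≤ 2((e+1)(1+m)m^(e+1))^e < N` (`m ≥ 1`), so LIO gives
`n ≠ 0`, `|n_i| ≤ N`, `∑ n_i (w_i).2 = 0`; KIL with `k+1` operators
(`(k+1) N K^(k+2) ρ ≤ (e+1) N K^(e+2) ρ ≤ 1`): `∑ n_i • w_i = 0`.  FLD, then FUN:
`finrank F = e`.  GEN for `Prod.snd '' Q` and lift the lists. -/
def Bc2Stmt : Prop :=
  ∀ (B : Type) [AddCommGroup B] [Module ℚ B] (E : Type) [NormedAddCommGroup E] [NormedSpace ℝ E]
    (f : B →+ E) (V : AddSubgroup B) (Q : Set (Module.End ℚ B × ℝ)) (a : B →ₗ[ℚ] ℝ)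
    (e m N : ℕ) (K ρ : ℝ) (x : B), Dsc f V → FiniteDimensional ℚ B → finrank ℚ B = e → 1 ≤ e →
      0 < ρ → 1 ≤ K → 1 ≤ m → bs f V ρ = ⊤ → (∀ y ∈ V, ‖f y‖ ≤ 1 → a y = 0 → y = 0) →
      (∀ q ∈ Q, Eig a q) →
      (∀ l : List (Module.End ℚ B × ℝ), (∀ q ∈ l, q ∈ Q) → l.length ≤ e + 1 →
        (∀ y ∈ V, ‖f y‖ ≤ ρ → Mlt f V K l.prod.1 y) ∧ Alg e m l.prod.2) →
      2 * ((e + 1) * (1 + m) * m ^ (e + 1)) ^ e < N →
      ((e : ℝ) + 1) * N * K ^ (e + 2) * ρ ≤ 1 → a x ≠ 0 →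
      (∀ ψ : B →ₗ[ℚ] ℝ, (∀ q ∈ Q, Eig ψ q) → ψ x = 0 → ψ = 0) →
      ∃ w : Fin e → ℝ, LinearIndependent ℚ w ∧ ∀ i, ∃ l : List (Module.End ℚ B × ℝ),
        l.length ≤ e ∧ (∀ q ∈ l, q ∈ Q) ∧ w i = l.prod.2

/-! ### The product argument -/

/-- ROW PSI (medium).  From a functional on one line to a projection of everything.
PROOF.  Let `k₀ ∈ W` be a third slope, `r_k = (k - t₁)/(k - t₂)`, `r₀ = r_(k₀)`.  For
`m = y + z`, `y ∈ N t₁`, `z ∈ N t₂` (`IsCompl`) put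
`π m = ψ y (1 + i t₁) + r₀ ψ (τ z) (1 + i t₂)`, `τ z` = the projection of `z` onto `N t₁` along
`N k₀`.  `m ∈ N t₁`: `π m = ψ m (1 + i t₁)`.  `m ∈ N t₂`: `π m = r₀ ψ (τ m) (1 + i t₂)`, and `τ` is
onto.  `m ∈ N k`, `k ≠ t₁, t₂`: `m = y - z`, `y ∈ N t₁`, `z ∈ N t₂`, and `IsS` for `(k, k₀)`: for
this `y` there is `z' ∈ N t₂` with `y - z' ∈ N k`, `S y - z' ∈ N k₀`; `z - z' ∈ N k ⊓ N t₂`, so
`z' = z`, and `τ z = S y`, `ψ (τ z) = (r_k / r₀) ψ y`.  So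
`π m = ψ y ((1 + i t₁) - r_k (1 + i t₂))`, with real part `ψ y (1 - r_k)` and imaginary part
`ψ y (t₁ - r_k t₂) = k (1 - r_k) ψ y`; `1 - r_k ≠ 0` since `t₁ ≠ t₂`.  Nonzero on every `N t`: take
`y` with `ψ y ≠ 0` and the corresponding element (`y`; `z` with `τ z = y`; the element
`y - z ∈ N k` with `z` = projection of `y` onto `N t₂` along `N k`). -/
def PsiStmt : Prop :=
  ∀ (A : Type) [AddCommGroup A] [Module ℚ A] (N : ℝ → Submodule ℚ A) (W : Finset ℝ)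
    (t₁ t₂ : ℝ) (S : ℝ → ℝ → Module.End ℚ (N t₁)) (ψ : N t₁ →ₗ[ℚ] ℝ), Two N W → t₁ ∈ W →
      t₂ ∈ W → t₁ ≠ t₂ → 3 ≤ W.card →
      (∀ k ∈ W, ∀ l ∈ W, k ≠ t₁ → k ≠ t₂ → l ≠ t₁ → l ≠ t₂ → IsS N t₁ t₂ k l (S k l)) →
      (∀ q ∈ Qs N W t₁ t₂ S, Eig ψ q) → ψ ≠ 0 →
      ∃ π : A →+ ℂ, (∀ t ∈ W, ∀ m ∈ N t, (π m).im = t * (π m).re) ∧
        (∀ y : N t₁, ψ y = 0 → π (y : A) = 0) ∧ ∀ t ∈ W, ∃ m ∈ N t, π m ≠ 0

/-- ROW PRF (medium).  One line: image and kernel.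
PROOF.  `V = cut G M`, `g` = number of the values of `π` on `bl f V 1`, `h` = number of
`x ∈ bl f V 2` with `π x = 0`.  A fibre of `π` on `bl f V 1` is contained in (a point of it) `+`
(the `h` elements), so `j ≤ cnt f V 1 ≤ g h`.  The nonzero values have real part `≠ 0` (slope `t`,
`eq_zero_of_re`) and are symmetric: let `Z` be the values with positive real part,
`g = 2|Z| + 1`, `|Z| ≥ 1` by the last hypothesis, so `g ≤ 3|Z|`.  For `z ∈ Z` choose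
`y_z ∈ bl f V 1` with `π y_z = z`; `y_z ≠ 0`, so `(Φ y_z).re ≠ 0` (`Ppr` and slope).  `Y₊` = the `y_z`
with `(Φ y_z).re > 0` (`σ = 1`), `Y₋` = the `- y_z` with `(Φ y_z).re < 0` (`σ = -1`);
`|Y₊| + |Y₋| = |Z|`, take the larger one: `g ≤ 6 |Y|`.  `U` = the `x ∈ bl f V 2` with `π x = 0`,
`(Φ x).re > 0`: `h = 2|U| + 1 ≤ 3|U|`.  So `j ≤ g h ≤ 18 |Y||U|`. -/
def PrfStmt : Prop :=
  ∀ (A : Type) [AddCommGroup A] [Module ℚ A] (E : Type) [NormedAddCommGroup E] [NormedSpace ℝ E]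
    (Φ : A →+ ℂ) (f : A →+ E) (G : AddSubgroup A) (M : Submodule ℚ A) (π : A →+ ℂ) (t j : ℝ),
      Dsc f G → Ppr Φ f G 8 → (∀ x ∈ M, (Φ x).im = t * (Φ x).re) →
      (∀ x ∈ M, (π x).im = t * (π x).re) → j ≤ cnt f (cut G M) 1 →
      (∃ y ∈ cut G M, y ≠ 0 ∧ ‖f y‖ ≤ 2 ∧ π y = 0) → (∃ y ∈ cut G M, ‖f y‖ ≤ 1 ∧ π y ≠ 0) →
      Fib Φ f G M π t j

/-- ROW PRC (medium-strong), uses SOL.  The product argument.
PROOF.  For every `t ∈ W` choose `σ_t, Y_t, U_t`.  One of the signs, `σ`, occurs for `s' ≥ s/2`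
slopes (`s = |W|`); sort these: `t_0 < .. < t_n`, `n = s' - 1 ≥ s/2 - 1 ≥ s/4`.  Write `Y_i, U_i`.
Consider the `(p, u, u', q, y, y')`, `p, q < n`, `u ∈ U_p`, `u' ∈ U_(p+1)`, `y ∈ Y_q`,
`y' ∈ Y_(q+1)` and the element `x = u + u' + y + y'` of `cone Φ f G 8 a b` (size `≤ 2+2+1+1`, real part
of the image positive, slope between `a` and `b` because all four summands have slopes in
`[a, b]` and positive real parts).  The map is injective: `π x = π y + π y'`, and SOL applied to the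
points `σ π y`, `σ π y'` (slopes `t_q`, `t_(q+1)`, real parts positive) gives `q`, `π y`, `π y'`, so
`y, y'` (`InjOn`); then `u + u'` is known, SOL for `Φ u`, `Φ u'` gives `p`, `Φ u`, `Φ u'`, so
`u, u'` (`Ppr`, differences of size `≤ 4`).  So with `α_i = |Y_i||Y_(i+1)|`,
`β_i = |U_i||U_(i+1)|`: `(∑ α_q)(∑ β_p) ≤ |cone|`, and by Cauchy-Schwarz
`(∑ α)(∑ β) ≥ (∑ sqrt (α_i β_i))² ≥ (n j/18)²` (`α_i β_i = |Y_i||U_i| |Y_(i+1)||U_(i+1)| ≥ (j/18)²`).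
So `(s j / 72)² ≤ |cone|`, `72² = 5184`. -/
def PrcStmt : Prop :=
  ∀ (A : Type) [AddCommGroup A] [Module ℚ A] (E : Type) [NormedAddCommGroup E] [NormedSpace ℝ E]
    (Φ : A →+ ℂ) (f : A →+ E) (G : AddSubgroup A) (N : ℝ → Submodule ℚ A) (W : Finset ℝ)
    (π : A →+ ℂ) (a b j : ℝ), Dsc f G → Ppr Φ f G 8 → Slo Φ N W → 4 ≤ W.card → 0 ≤ j →
      (∀ t ∈ W, a ≤ t ∧ t ≤ b) → (∀ t ∈ W, Fib Φ f G (N t) π t j) →
      ((W.card : ℝ) * j) ^ 2 ≤ 5184 * (cone Φ f G 8 a b).card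

/-- ROW PRO (medium), uses TRA PSI PRF PRC.  There is only one functional.
PROOF.  Suppose `ψ ≠ 0`.  `H = 9 B |W|`, `Blk.nar`.  PSI gives `π` (`Slo`-type property, `π = 0` on
the `y ∈ N t₁` with `ψ y = 0`, so `π x = 0`).  For every `t ∈ W`: (i) there is
`0 ≠ y ∈ cut G (N t)` with `‖f y‖ ≤ 2`, `π y = 0`: for `t = t₁` take `y = x`; for `t ≠ t₁` choose
`l ∈ W`, `l ≠ t, t₁` (`|W| ≥ 5`); TRA (`‖f x‖ (H+1) ≤ 256 H⁴ ‖f x‖ ≤ 1`): `c x = y + z`,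
`y ∈ cut G (N t)`, `z ∈ cut G (N l)`, `‖f y‖ ≤ 16 H² ‖f x‖ ≤ 1`; `0 = π (c x) = π y + π z` with
`π y` of slope `t`, `π z` of slope `l`: `π y = 0` (`eq_zero_of_slopes`); `y ≠ 0` since otherwise
`c x = z ∈ N t₁ ⊓ N l = 0`.  (ii) there is `y ∈ cut G (N t)` with `‖f y‖ ≤ 1`, `π y ≠ 0`: the
elements of size `≤ ρ ≤ 1` span `N t` (`gen`) and `π` is `ℚ`-linear and not `0` on it.  So
`Fib Φ f G (N t) π t j` for all `t ∈ W` (PRF), and PRC: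
`(|W| j)² ≤ 5184 |cone| ≤ 5184 B |W| j²`, so `|W| ≤ 5184 B`, contradiction to `large`. -/
def ProStmt : Prop :=
  ∀ (A : Type) [AddCommGroup A] [Module ℚ A] (E : Type) [NormedAddCommGroup E] [NormedSpace ℝ E]
    (Φ : A →+ ℂ) (f : A →+ E) (G : AddSubgroup A) (N : ℝ → Submodule ℚ A) (W : Finset ℝ)
    (e : ℕ) (ρ j B t₁ t₂ : ℝ) (S : ℝ → ℝ → Module.End ℚ (N t₁)) (x : N t₁)
    (ψ : N t₁ →ₗ[ℚ] ℝ), Blk Φ f G N W e ρ j B → t₁ ∈ W → t₂ ∈ W → t₁ ≠ t₂ →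
      (∀ k ∈ W, ∀ l ∈ W, k ≠ t₁ → k ≠ t₂ → l ≠ t₁ → l ≠ t₂ → IsS N t₁ t₂ k l (S k l)) →
      (x : A) ∈ G → x ≠ 0 → 256 * (9 * B * W.card) ^ 4 * ‖f x‖ ≤ 1 →
      (∀ q ∈ Qs N W t₁ t₂ S, Eig ψ q) → ψ x = 0 → ψ = 0

/-! ### The output of a block -/

/-- ROW BC1 (medium), uses LMS MUL WRD POL.  Words of a block: denominators, norms, heights.
PROOF.  `H = 9 B |W| ≥ 1`, `K = 256 H⁴ ≥ 1`.  (a) LMS.  (b) MUL gives the hypothesis of WRD for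
`Qs`; WRD: `K^(|l|+1) ‖f y‖ ≤ K^(e+2) ρ ≤ K^((e+1)e+1) ρ ≤ 1` (`e ≥ 1`).  (c) `V = Gr G (N t₁)`,
`a y = (Φ y).re`, a `ℚ`-linear functional on `N t₁` (`Φ_rat`).  `N t₁ ≠ 0` (`dim`, `he`) is spanned
by elements of `V` of size `≤ ρ` (`gen`; `bl_fr`), so there is a nonzero `x ∈ V` of least size
(finite balls), `‖f x‖ ≤ ρ`; `a x ≠ 0` (`Ppr`, slope).  `α = l.prod.1`, `w = l.prod.2`:
`a (α y) = w a y` (`eig_word`, LMS).  `α^q` is the first component of the product of the `q`-fold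
concatenation of `l`, of length `≤ (e+1) e` for `q ≤ e`; WRD: `Mlt` with
`K^((e+1)e)` for `α^q`, `x` (`K^((e+1)e+1) ‖f x‖ ≤ 1`).  POL with `K^((e+1)e)` in place of `K`. -/
def Bc1Stmt : Prop :=
  ∀ (A : Type) [AddCommGroup A] [Module ℚ A] (E : Type) [NormedAddCommGroup E] [NormedSpace ℝ E]
    (Φ : A →+ ℂ) (f : A →+ E) (G : AddSubgroup A) (N : ℝ → Submodule ℚ A) (W : Finset ℝ)
    (e m : ℕ) (ρ j B K t₁ t₂ : ℝ) (S : ℝ → ℝ → Module.End ℚ (N t₁)),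
      Blk Φ f G N W e ρ j B → t₁ ∈ W → t₂ ∈ W → t₁ ≠ t₂ →
      (∀ k ∈ W, ∀ l ∈ W, k ≠ t₁ → k ≠ t₂ → l ≠ t₁ → l ≠ t₂ → IsS N t₁ t₂ k l (S k l)) →
      K = 256 * (9 * B * W.card) ^ 4 → K ^ ((e + 1) * e + 1) * ρ ≤ 1 →
      (3 * ((e : ℝ) + 1) * K ^ ((e + 1) * e)) ^ e * K ^ ((e + 1) * e) ≤ m →
      (∀ q ∈ Qs N W t₁ t₂ S, ∀ y : N t₁, Φ (q.1 y : A) = ((q.2 : ℝ) : ℂ) * Φ (y : A)) ∧
      ∀ l : List (Module.End ℚ (N t₁) × ℝ), (∀ q ∈ l, q ∈ Qs N W t₁ t₂ S) →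
        l.length ≤ e + 1 →
        (∀ y ∈ Gr G (N t₁), ‖f y‖ ≤ ρ →
          Mlt (fr f (N t₁)) (Gr G (N t₁)) (K ^ l.length) l.prod.1 y) ∧ Alg e m l.prod.2

/-- ROW BCK (medium-strong), uses SEP EXS BC1 PRO BC2.  What a good block gives.
PROOF.  Choose `t₁ ≠ t₂` in `W`, `S k l` from EXS (choose `0` for the other pairs), BC1.  `B₁ = N t₁`,
`V = Gr G (N t₁)`, `a y = (Φ y).re`: `bs (fr f (N t₁)) V ρ = ⊤` (`gen`, `bl_fr`), `a y = 0` and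
size `≤ 1` imply `y = 0` (`Ppr`, slope), `Eig a q` for `q ∈ Qs`.  `x` = nonzero element of `V` of
least size, `‖f x‖ ≤ ρ`.  PRO (for this `x`: `K ‖f x‖ ≤ K ρ ≤ 1`), BC2 with `K^(e+1)` in place of `K`
(`Mlt.mono`): `w_i = l_i.prod.2` independent.  `Mlt` for `l_i` and `x`: `c_i ≤ K^e`,
`y_i = c_i • l_i.prod.1 x ∈ G`, `‖f y_i‖ ≤ K^e ‖f x‖`; `Φ y_i = c_i w_i Φ x`: induction on the list
from the first part of BC1 (or `eig_word` for `a` and the slope `t₁`).  SEP for `V` (rank `≤ e`),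
`r = 1`, `δ = ‖f x‖`: `j ≤ cnt f (cut G (N t₁)) 1 = cnt (fr f _) V 1 ≤ (1 + 2/‖f x‖)^e ≤ (3/‖f x‖)^e`
(`‖f x‖ ≤ 1`). -/
def BckStmt : Prop :=
  ∀ (A : Type) [AddCommGroup A] [Module ℚ A] (E : Type) [NormedAddCommGroup E] [NormedSpace ℝ E]
    (Φ : A →+ ℂ) (f : A →+ E) (G : AddSubgroup A) (N : ℝ → Submodule ℚ A) (W : Finset ℝ)
    (e m n : ℕ) (ρ j B K : ℝ), Blk Φ f G N W e ρ j B → K = 256 * (9 * B * W.card) ^ 4 →
      K ^ ((e + 1) * e + 1) * ρ ≤ 1 →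
      (3 * ((e : ℝ) + 1) * K ^ ((e + 1) * e)) ^ e * K ^ ((e + 1) * e) ≤ m →
      2 * ((e + 1) * (1 + m) * m ^ (e + 1)) ^ e < n →
      ((e : ℝ) + 1) * n * (K ^ (e + 1)) ^ (e + 2) * ρ ≤ 1 →
      ∃ t ∈ W, ∃ x ∈ cut G (N t), x ≠ 0 ∧ ‖f x‖ ≤ 1 ∧ ‖f x‖ ^ e * j ≤ 3 ^ e ∧
        Out Φ f G e m (K ^ e) x

end Pool.Agent.PLX
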