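import Pool.Agent.PLX.StmtsA

/-!
Squad PLX (MP_1fc801_co), part B: the structure theorem for `T`-proper maps and the main theorems.
See the header of `StmtsA.lean`.
-/

set_option autoImplicit false

namespace Pool.Agent.PLX

open Module

/-! ### Two lines of a good block are independent -/

/-- ROW MIK (STRONG), uses PKV GRU.  Two lines of a narrow block are independent.
PROOF.  `V = cut G M`, `V' = cut G M'`.  `e = 0` is trivial.  Suppose `0 ≠ w ∈ M ⊓ M'`; `Φ w = 0`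
(`eq_zero_of_slopes`).  `α` = maximum of `(Φ x).re` over `bl f V 1`; it is `> 0` since
`bl f V ρ` contains a nonzero `x` (it spans `M ≠ 0`), `(Φ x).re ≠ 0` (`Ppr`, slope), take `x` or `-x`.
Let `y*` be an element with `(Φ y*).re = α`.  `α'`, `z*` in the same way for `V'`.
(STEPS) `|(Φ y).re| ≤ (2R+1) α` for `y ∈ bl f V R`: let `v_1, .., v_e ∈ bl f V ρ` be a rational basis
of `M`, `y = ∑ q_i v_i`, `m = ⌈2R⌉`, `p_h = ∑ ⌊h q_i/m⌋ v_i` for `0 ≤ h < m`, `p_m = y`: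
`p_0 = 0`, `‖f p_h - (h/m) f y‖ ≤ e ρ ≤ 1/4`, so `‖f (p_(h+1) - p_h)‖ ≤ R/m + 1/2 ≤ 1`, each
difference is in `bl f V 1`, so its image has real part `≤ α`; sum over `h`; the same for `-y`.
(COUNT) GRU for `V`, `ρ`, `r = 1`, `R` (`bs f V 1 ≤ M = bs f V ρ`, `8(e+1) ≤ R`):
`R^e j ≤ (4(e+2)·1)^e cnt f V R`, the same for `V'`.  So `𝒫 = bl f V R ×ˢ bl f V' R` has at least
`(R^e j/(4(e+2))^e)²` elements.
(PIGEONHOLE) `ℓ (y, z) = (f y + f z, (Φ y).re/α, (Φ z).re/α') ∈ E × ℝ × ℝ` (sup norm) is additive on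
`A × A`, on `𝒫` of norm `≤ 2R + 1 ≤ 3R`.  `𝓜` = image of `M × M'` under `ℓ` is a rational subspace
of `E × ℝ × ℝ` of dimension `≤ 2e - 1` (`ℓ (w, -w) = 0`).  A maximal `S ⊂ 𝒫` whose `ℓ`-images have
distances `≥ 1` has `≤ (1 + 6R)^(2e-1) ≤ (7R)^(2e-1)` elements (PKV for the rational vector space
`E × ℝ × ℝ`, `f = id`, `𝓜`); every `p ∈ 𝒫` has `s ∈ S` with `‖ℓ p - ℓ s‖ ≤ 1`, so some class `𝒞`
has `|𝒫| ≤ (7R)^(2e-1) |𝒞|` elements.  Fix `(y₀, z₀) ∈ 𝒞`.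
(POINTS) For `(y, z) ∈ 𝒞` let `x = (y - y₀) + 3 y* + (z - z₀) + 3 z*`: `‖ℓ (y - y₀, z - z₀)‖ ≤ 2`, so
`‖f x‖ ≤ 2 + 3 + 3`, the images of `(y - y₀) + 3 y*`, `(z - z₀) + 3 z*` have real parts
`≥ -2α + 3α > 0`, `> 0`, and slopes `s`, `t`; so `x ∈ cone Φ f G 8 a b`.  Injective: if
`(y, z), (y', z')` give the same `x` then `y - y' = z' - z ∈ V ∩ V'`, its image is `0`, its size is
`≤ 2R`, so it is `0` (`Ppr`).  So `|𝒞| ≤ B j²`, and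
`R^(2e) j² ≤ (4(e+2))^(2e) (7R)^(2e-1) B j²`, `R ≤ (4(e+2))^(2e) 7^(2e) B`, a contradiction. -/
def MikStmt : Prop :=
  ∀ (A : Type) [AddCommGroup A] [Module ℚ A] (E : Type) [NormedAddCommGroup E] [NormedSpace ℝ E]
    (Φ : A →+ ℂ) (f : A →+ E) (G : AddSubgroup A) (M M' : Submodule ℚ A) (e : ℕ)
    (ρ j B R a b s t : ℝ), Dsc f G → 0 < ρ → 4 * ((e : ℝ) + 1) * ρ ≤ 1 → 0 < j → s ≠ t →
      a ≤ s → s ≤ b → a ≤ t → t ≤ b → finrank ℚ M = e → finrank ℚ M' = e →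
      (∀ x ∈ M, (Φ x).im = s * (Φ x).re) → (∀ x ∈ M', (Φ x).im = t * (Φ x).re) →
      bs f (cut G M) ρ = M → bs f (cut G M') ρ = M' → j ≤ cnt f (cut G M) 1 →
      j ≤ cnt f (cut G M') 1 → ((cone Φ f G 8 a b).card : ℝ) ≤ B * j ^ 2 →
      8 * ((e : ℝ) + 1) ≤ R → B * ((4 * ((e : ℝ) + 2)) ^ (2 * e) * 7 ^ (2 * e)) < R →
      Ppr Φ f G (2 * R) → Disjoint M M'

/-- ROW BLF (medium).  The family of narrow blocks.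
PROOF.  Sort `Θ` and cut it in `m = ⌊|Θ|/s⌋ ≥ |Θ|/(2s)` blocks of `s` consecutive slopes
(`orderEmbOfFin`); for a block `W` let `a, b` be its smallest and largest slope.  The cones of
different blocks are disjoint (for `x` in two of them, `(Φ x).im / (Φ x).re` would be in two
disjoint intervals), so the sum of `c(W) = |cone Φ f G 8 a b|` is `≤ cnt f G 8 ≤ T`.  At most `m/2`
blocks have `c(W) > 2T/m`; the others have `c(W) |Θ| ≤ 2 T |Θ| / m ≤ 4 s T` and there are at least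
`m/2 ≥ |Θ|/(4s)` of them.  (PLG row BLF with `Φ`.) -/
def BlfStmt : Prop :=
  ∀ (A : Type) [AddCommGroup A] [Module ℚ A] (E : Type) [NormedAddCommGroup E] [NormedSpace ℝ E]
    (Φ : A →+ ℂ) (f : A →+ E) (G : AddSubgroup A) (Θ : Finset ℝ) (s : ℕ) (T : ℝ), Dsc f G →
      1 ≤ s → s ≤ Θ.card → (cnt f G 8 : ℝ) ≤ T →
      ∃ F : Finset (Finset ℝ), (∀ W ∈ F, W ⊆ Θ ∧ W.card = s ∧ ∃ a b : ℝ,
          (∀ t ∈ W, a ≤ t ∧ t ≤ b) ∧ ((cone Φ f G 8 a b).card : ℝ) * Θ.card ≤ 4 * s * T) ∧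
        (∀ W ∈ F, ∀ W' ∈ F, W ≠ W' → Disjoint W W') ∧ Θ.card ≤ 4 * s * F.card

/-! ### Dimensions of the lines -/

/-- ROW DMN (medium-strong), uses COV SLC GRU.  The lines have at least half of the rank.
PROOF.  `r = 1/L^c`, `r' = 1/L^c'`.  Suppose `2α ≤ d - 1`.  For `t ∈ Θ`, `V = lp Φ G t`: COV
(`r = 1, r' = r`, rank `≤ d`): `j ≤ (3/r)^d cnt f V r`; COV (`r, r'`, rank `≤ α`):
`cnt f V r ≤ (3r/r')^α cnt f V r'`.  So `cnt f V r' ≥ q := j 9^(-d) r^d r'^α` (`r ≤ 1`, `α ≤ d`);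
`q ≥ 3` by `j ≥ L^C`.  SLC at `r'`: `(|Θ|-1) q² ≤ 9 cnt f G (2r')`; GRU (`V = G`, `k = d`, `ρ = r'`,
`r = 2r'`, `R = 1`; `16(d+1) r' ≤ 1` for `c'` large): `cnt f G (2r') ≤ (8(d+2) r')^d cnt f G 1`.
With `|Θ| - 1 ≥ |Θ|/2`: `81^(-d) r^(2d) r'^(2α) ≤ 18 (8(d+2))^d r'^d L^b`, and
`r'^(2α) ≥ r'^(d-1)`: `L^c' = 1/r' ≤ 18 (648(d+2))^d L^(b+2dc)`, false for `c' ≥ c₀`
(`18 (648(d+2))^d ≤ L^k` with `k = k(d)` since `L ≥ 2`). -/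
def DmnStmt : Prop :=
  ∀ d c b : ℕ, ∃ c₀ : ℕ, c < c₀ ∧ ∀ c' : ℕ, c₀ ≤ c' → ∃ C : ℕ, ∀ (A : Type) [AddCommGroup A]
    [Module ℚ A] (E : Type) [NormedAddCommGroup E] [NormedSpace ℝ E] (Φ : A →+ ℂ) (f : A →+ E)
    (G : AddSubgroup A) (Θ : Finset ℝ) (L j : ℝ) (α : ℕ), FiniteDimensional ℚ A → Dsc f G →
      finrank ℚ A = d → 2 ≤ L → L ^ C ≤ j → Ppr Φ f G 8 → bs f G (1 / L ^ c') = ⊤ →
      2 ≤ Θ.card →
      (∀ t ∈ Θ, j ≤ cnt f (lp Φ G t) 1 ∧ finrank ℚ (bs f (lp Φ G t) (1 / L ^ c)) ≤ α) →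
      (cnt f G 1 : ℝ) ≤ L ^ b * Θ.card * j ^ 2 → d ≤ 2 * α

/-- ROW DPL (medium-strong), uses COV SLC GRU.  The lines have at most half of the rank.
PROOF.  `r = 1/L^c`, `R = L^C₁`, `C₁` large, `2R ≤ L^C`.  For `t ∈ Θ`, `V = lp Φ G t`: COV (`1, r`):
`cnt f V r ≥ (r/3)^d j`.  GRU (`k = α`, `ρ, r, R`): `R^α cnt f V r ≤ (4(α+2) r)^α cnt f V R`, so
`cnt f V R ≥ q := R^α j (r/3)^d (4(d+2))^(-d)` (`r ≤ 1`, `α ≤ d`); `q ≥ 3`.  SLC at `R` (`Ppr` for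
`2R`) and COV (`2R, 1`): `(|Θ|-1) q² ≤ 9 cnt f G (2R) ≤ 9 (5R)^d cnt f G 1 ≤ 9 (5R)^d L^b |Θ| j²`.
So `R^(2α) r^(2d) ≤ 18 · 5^d 9^d (4(d+2))^(2d) R^d L^b`; if `2α ≥ d+1` then
`R ≤ 18 · 45^d (4(d+2))^(2d) L^(b+2dc)`, false for `C₁` large. -/
def DplStmt : Prop :=
  ∀ d c b : ℕ, ∃ C : ℕ, ∀ (A : Type) [AddCommGroup A] [Module ℚ A] (E : Type)
    [NormedAddCommGroup E] [NormedSpace ℝ E] (Φ : A →+ ℂ) (f : A →+ E) (G : AddSubgroup A)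
    (Θ : Finset ℝ) (L j ρ : ℝ) (α : ℕ), FiniteDimensional ℚ A → Dsc f G → finrank ℚ A = d →
      2 ≤ L → L ^ C ≤ j → Ppr Φ f G (L ^ C) → 0 < ρ → ρ ≤ 1 / L ^ c → 2 ≤ Θ.card →
      (∀ t ∈ Θ, j ≤ cnt f (lp Φ G t) 1 ∧ finrank ℚ (bs f (lp Φ G t) ρ) = α ∧
        bs f (lp Φ G t) (1 / L ^ c) ≤ bs f (lp Φ G t) ρ) →
      (cnt f G 1 : ℝ) ≤ L ^ b * Θ.card * j ^ 2 → 2 * α ≤ d

/-! ### From many blocks to a rich direction -/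

/-- ROW RTS (easy-medium).  (Word for word the row RTS of PLG.)  PROOF.  The polynomials of degree
`≤ e` with coefficients in `[-m, m]` are the image of `Fin (e+1) → Finset.Icc (-m) m`: at most
`(2m+1)^(e+1)`, each nonzero one has at most `e` real roots (`Polynomial.card_roots'` for the image
in `ℝ[X]`, which is nonzero). -/
def RtsStmt : Prop :=
  ∀ e m : ℕ, ∃ S : Finset ℝ, S.card ≤ e * (2 * m + 1) ^ (e + 1) ∧ ∀ w : ℝ, Alg e m w → w ∈ S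

/-- ROW FNL (STRONG), uses PKV GRU.  Many short vectors with the same multipliers give a rich line.
PROOF.  `R = Q^(1/e)` (`Real.rpow`), `κ = 16 (e+1)²`: `κ R ≤ 1` and `(κR)^(2e+1) n < |X|` with
`n = cnt f G 1` (`e`-th powers).  Choose `y_i(x)` for `x ∈ X`.  `A' = A × (Fin e → A)`,
`E' = E × (Fin e → E)` (sup norm), `f' (x, y) = (f x, (f y_i)_i)`, `Γ` = the additive group of the
`(x, y)` with `x, y_i ∈ G`, `Φ y_i = μ_i Φ x`.  `Dsc f' Γ` (a ball of `Γ` is contained in a finite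
product of balls).  `𝒳 = {(x, y(x)) : x ∈ X} ⊂ bl f' Γ R`, `|𝒳| = |X|`.
(RANK) `k = finrank (bs f' Γ R) ≤ finrank A' ≤ 2e(e+1)`.  GRU (`V = Γ`, `ρ = r = R`, `R = 1`;
`8(k+1) ≤ κ`, `4(k+2) ≤ κ`): `|X| ≤ cnt f' Γ R ≤ (4(k+2)R)^k cnt f' Γ 1 ≤ (κR)^k n`, because
`(x, y) ↦ x` is injective on the ball of radius `1` (`Φ (y_i - y'_i) = 0`, size `≤ 2`, `Ppr`).  If
`k ≥ 2e+1` this is `≤ (κR)^(2e+1) n < |X|`, a contradiction; so `k ≤ 2e`.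
(SHORT) `ρ = 4 R |X|^(-1/(2e))`.  If the elements of `𝒳` were `ρ`-separated for `f'`, PKV with
`M = bs f' Γ R` would give `|X| ≤ (1 + 2R/ρ)^(2e) = (1 + |X|^(1/(2e))/2)^(2e) < |X|`
(`|X|^(1/(2e)) > 2`).  So there are `x ≠ x'` in `X` such that `u₀ = x - x' ≠ 0`,
`u_i = y_i(x) - y_i(x')` have sizes `< ρ`; `z = Φ u₀ ≠ 0` (`Ppr`, `‖f u₀‖ ≤ 2R ≤ 2`), `Φ u_i = μ_i z`.
(COUNT) `m = ⌊1/(e ρ)⌋` (if `e ρ > 1` then `(1/(eρ))^(2e) ≤ 1 ≤ cnt²`).  The `(m+1)^e` elements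
`∑ n_i u_i`, `0 ≤ n_i ≤ m`, are different (their images `(∑ n_i μ_i) z` are: `μ` is independent over
`ℚ`), in `lz Φ G z`, of size `≤ e m ρ ≤ 1`, so `cnt f (lz Φ G z) 1 ≥ (1/(eρ))^e` and
`cnt² ≥ (eρ)^(-2e) = |X| / (4 e R)^(2e) = |X| / ((4e)^(2e) Q²)`.  (PLG row FNL + (RANK).) -/
def FnlStmt : Prop :=
  ∀ (A : Type) [AddCommGroup A] [Module ℚ A] (E : Type) [NormedAddCommGroup E] [NormedSpace ℝ E]
    (Φ : A →+ ℂ) (f : A →+ E) (G : AddSubgroup A) (e : ℕ) (μ : Fin e → ℝ) (X : Finset A)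
    (Q : ℝ), Dsc f G → FiniteDimensional ℚ A → finrank ℚ A ≤ 2 * e → 1 ≤ e →
      LinearIndependent ℚ μ → 0 < Q → Ppr Φ f G 2 →
      (∀ x ∈ X, x ∈ G ∧ ‖f x‖ ^ e ≤ Q ∧
        ∀ i, ∃ y ∈ G, Φ y = ((μ i : ℝ) : ℂ) * Φ x ∧ ‖f y‖ ^ e ≤ Q) →
      (16 * ((e : ℝ) + 1) ^ 2) ^ e * Q ≤ 1 →
      ((16 * ((e : ℝ) + 1) ^ 2) ^ e * Q) ^ (2 * e + 1) * (cnt f G 1 : ℝ) ^ e < (X.card : ℝ) ^ e →
      (2 : ℝ) ^ (2 * e) < X.card →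
      ∃ z : ℂ, z ≠ 0 ∧ (X.card : ℝ) ≤ (4 * e) ^ (2 * e) * Q ^ 2 * (cnt f (lz Φ G z) 1 : ℝ) ^ 2

/-- ROW TPL (medium), uses RTS FNL.  Pigeonhole over the universal finite set of multipliers.
PROOF.  Choose `w_x, c_x` for every `x ∈ X`.  `(c_x, w_x)` lies in `(Fin e → range (⌊K⌋ + 1)) × (Fin e → S)`
with `S` from RTS: at most `T` possibilities, `T ≥ 1`.  Some `(c, w)` occurs for `X' ⊂ X` with
`|X| ≤ T |X'|`.  `μ_i = c_i w_i` is independent over `ℚ` (`c_i ≥ 1`); with `Q = (3K)^e/j`: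
`‖f x‖^e ≤ 3^e/j ≤ Q`, `‖f y_i‖^e ≤ K^e ‖f x‖^e ≤ Q`.  `κ = 16(e+1)²`:
`κ^e Q = (3κK)^e/j ≤ 1` (`D T ≥ 1`), and `(κ^e Q)^(2e+1) cnt^e < |X'|^e` because
`cnt ≤ D |X| j² ≤ D T |X'| j²` and `(3κK)^(e(2e+1)) (D T)^e j^(2e) < j^(2e+1)`.
If `|X'| ≤ 2^(2e)` the first case.  Otherwise FNL:
`|X'| ≤ (4e)^(2e) (3K)^(2e) / j² cnt²`. -/
def TplStmt : Prop :=
  ∀ (A : Type) [AddCommGroup A] [Module ℚ A] (E : Type) [NormedAddCommGroup E] [NormedSpace ℝ E]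
    (Φ : A →+ ℂ) (f : A →+ E) (G : AddSubgroup A) (e m : ℕ) (X : Finset A) (K j T D : ℝ),
      Dsc f G → FiniteDimensional ℚ A → finrank ℚ A ≤ 2 * e → 1 ≤ e → 1 ≤ K → 0 < j → 1 ≤ D →
      Ppr Φ f G 2 → T = ((K + 1) * (e * (2 * (m : ℝ) + 1) ^ (e + 1))) ^ e →
      (∀ x ∈ X, x ∈ G ∧ ‖f x‖ ^ e * j ≤ 3 ^ e ∧ Out Φ f G e m K x) →
      (cnt f G 1 : ℝ) ≤ D * X.card * j ^ 2 →
      (3 * (16 * ((e : ℝ) + 1) ^ 2) * K) ^ (e * (2 * e + 1)) * (D * T) ^ e < j →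
      (X.card : ℝ) ≤ T * 2 ^ (2 * e) ∨ ∃ z : ℂ, z ≠ 0 ∧
        (X.card : ℝ) * j ^ 2 ≤ T * (12 * e * K) ^ (2 * e) * (cnt f (lz Φ G z) 1 : ℝ) ^ 2

/-- ROW CS1 (medium).  Constants: all the quantities of BKS are powers of `L`.
PROOF.  Every constant `≥ 1` is at most `2^k ≤ L^k`; so `B, s, K, m, n, R, T` are at most `L^k` with
`k` depending on `e, b` (`⌈x⌉₊ ≤ x + 1`), then choose `c` and `C` large. -/
def Cs1Stmt : Prop :=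
  ∀ e b : ℕ, ∃ c C : ℕ, ∀ (L B K T R : ℝ) (s m n : ℕ), 2 ≤ L → B = 4 * 17 ^ (2 * e) * L ^ b →
    s = ⌈5184 * B⌉₊ + 5 → K = 256 * (9 * B * s) ^ 4 →
    m = ⌈(3 * ((e : ℝ) + 1) * K ^ ((e + 1) * e)) ^ e * K ^ ((e + 1) * e)⌉₊ →
    n = 2 * ((e + 1) * (1 + m) * m ^ (e + 1)) ^ e + 1 →
    R = 8 * ((e : ℝ) + 1) + B * s * ((4 * ((e : ℝ) + 2)) ^ (2 * e) * 7 ^ (2 * e)) + 1 →
    T = ((K ^ e + 1) * (e * (2 * (m : ℝ) + 1) ^ (e + 1))) ^ e →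
    (∀ ρ : ℝ, 0 < ρ → ρ ≤ 1 / L ^ c → ρ ≤ 1 ∧ 4 * ((e : ℝ) + 1) * ρ ≤ 1 ∧
      K ^ ((e + 1) * e + 1) * ρ ≤ 1 ∧ ((e : ℝ) + 1) * n * (K ^ (e + 1)) ^ (e + 2) * ρ ≤ 1) ∧
    2 * R ≤ L ^ C ∧ 8 ≤ L ^ C ∧
    (∀ j : ℝ, L ^ C ≤ j → 3 ≤ j ∧
      (3 * (16 * ((e : ℝ) + 1) ^ 2) * K ^ e) ^ (e * (2 * e + 1)) * (L ^ b * (4 * s) * T) ^ e < j) ∧
    L ^ b * (4 * s) * (T * 2 ^ (2 * e)) ≤ L ^ C ∧ L ^ b * s ≤ L ^ C ∧
    L ^ b * (4 * s) * (T * (12 * e * K ^ e) ^ (2 * e)) ≤ L ^ C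

/-- ROW BKS (medium-strong), uses COV MIK BLF BCK TPL CS1.  Blocks at the scale one.
PROOF.  `c, C` from CS1.  Let `B, s, K, m, n, R, T` be the numbers of CS1.  `N t = bs f (lp Φ G t) ρ`
for `t ∈ Θ`: `Φ` has slope `t` on `N t` (`Φ_rat`), `bl f (cut G (N t)) ρ = bl f (lp Φ G t) ρ` and
`bl f (cut G (N t)) 1 = bl f (lp Φ G t) 1`, so `bs f (cut G (N t)) ρ = N t`,
`j ≤ cnt f (cut G (N t)) 1`.  `Θ` is not empty (`cnt ≥ 1`).  If `L^b |Θ| ≤ L^C`: `t ∈ Θ`,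
`z = ⟨1, t⟩`: `lp Φ G t ≤ lz Φ G z`, so `cnt f G 1 ≤ L^b |Θ| j² ≤ L^C cnt f (lz Φ G z) 1 ²`.
Otherwise `|Θ| ≥ s`.  COV: `cnt f G 8 ≤ 17^(2e) cnt f G 1`; BLF for `s` and
`T₀ = 17^(2e) L^b |Θ| j²`: for the blocks `W ∈ F`, `|cone| ≤ 4 s 17^(2e) L^b j² = B s j²`.
MIK (with `B s` in place of `B`): `N t`, `N t'` are disjoint for `t ≠ t'` in `W`, and
`e + e = 2e = finrank A`, so they are complementary.  So `Blk Φ f G N W e ρ j B`.  BCK gives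
`t_W ∈ W`, `x_W ∈ cut G (N t_W)`, `x_W ≠ 0`, size `≤ 1`; for `W ≠ W'` the slopes are different
(disjoint blocks) and `Φ x_W ≠ 0` (`Ppr`), so `x_W ≠ x_W'`: `X = {x_W}` has `|F|` elements and
`|Θ| ≤ 4 s |X|`, `cnt f G 1 ≤ L^b 4 s |X| j²`.  TPL with `K^e` in place of `K`, `D = L^b (4s)`: either
`|X| ≤ T 2^(2e)`, then `L^b |Θ| ≤ L^b 4 s T 2^(2e) ≤ L^C`, the first case, or
`cnt f G 1 ≤ L^b 4s |X| j² ≤ L^b 4s T (12 e K^e)^(2e) cnt²`. -/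
def BksStmt : Prop :=
  ∀ e b : ℕ, 1 ≤ e → ∃ c C : ℕ, ∀ (A : Type) [AddCommGroup A] [Module ℚ A] (E : Type)
    [NormedAddCommGroup E] [NormedSpace ℝ E] (Φ : A →+ ℂ) (f : A →+ E) (G : AddSubgroup A)
    (Θ : Finset ℝ) (L j ρ : ℝ), FiniteDimensional ℚ A → Dsc f G → finrank ℚ A = 2 * e →
      2 ≤ L → L ^ C ≤ j → Ppr Φ f G (L ^ C) → 0 < ρ → ρ ≤ 1 / L ^ c →
      (∀ t ∈ Θ, j ≤ cnt f (lp Φ G t) 1 ∧ finrank ℚ (bs f (lp Φ G t) ρ) = e ∧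
        bs f (lp Φ G t) 1 ≤ bs f (lp Φ G t) ρ) →
      (cnt f G 1 : ℝ) ≤ L ^ b * Θ.card * j ^ 2 →
      ∃ z : ℂ, z ≠ 0 ∧ (cnt f G 1 : ℝ) ≤ L ^ C * (cnt f (lz Φ G z) 1 : ℝ) ^ 2

/-- ROW THS (medium-strong), uses COV DMN DPL BKS.  Two fixed scales.
PROOF.  `b = 1 + 2d`, `b₁ = b + 2dc + 4d`, `c₀` from DMN for `d, c, b`, `c_e, C_e` from BKS for
`1 ≤ e ≤ d` and `b₁`; `c' = max (c₀, c + c_e)`; `C` large.  If `|Θ| ≤ 1`: `|Θ| = 1` (`cnt ≥ 1`),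
`z = ⟨1, t⟩`, `cnt f G 1 ≤ L^b j² ≤ L^b cnt f (lz Φ G z) 1 ²`.  If `|Θ| ≥ 2`: DMN (note
`finrank (bs f (lp Φ G t) (1/L^c)) ≤ α`) and DPL (`ρ = 1/L^c'`) give `d = 2α`.  `α = 0`: `A = 0`, so
`cnt f (lp Φ G t) 1 = 1 < j`, a contradiction.  `e = α ≥ 1`.  `f₁ = L^c • f`:
`bl f₁ V r = bl f V (r/L^c)`, `j₁ = j/(3 L^c)^d ≤ cnt f₁ (lp Φ G t) 1` (COV, `1 + 2L^c ≤ 3L^c`),
`ρ₁ = L^c/L^c' ≤ 1/L^(c_e)`, `cnt f₁ G 1 ≤ cnt f G 1 ≤ L^b (3L^c)^(2d) |Θ| j₁² ≤ L^b₁ |Θ| j₁²`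
(`9 ≤ L^4`), `Ppr Φ f₁ G (L^(C_e))`.  BKS: `cnt f₁ G 1 ≤ L^(C_e) cnt f₁ (lz Φ G z) 1 ²`, and
`cnt f G 1 ≤ (3L^c)^d cnt f₁ G 1` (COV), `cnt f₁ (lz Φ G z) 1 ≤ cnt f (lz Φ G z) 1`. -/
def ThsStmt : Prop :=
  ∀ d c : ℕ, ∃ c' : ℕ, c < c' ∧ ∃ C : ℕ, ∀ (A : Type) [AddCommGroup A] [Module ℚ A] (E : Type)
    [NormedAddCommGroup E] [NormedSpace ℝ E] (Φ : A →+ ℂ) (f : A →+ E) (G : AddSubgroup A)
    (Θ : Finset ℝ) (L j : ℝ) (α : ℕ), FiniteDimensional ℚ A → Dsc f G → finrank ℚ A = d →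
      2 ≤ L → L ^ C ≤ j → Ppr Φ f G (L ^ C) → bs f G (1 / L ^ c') = ⊤ →
      (∀ t ∈ Θ, j ≤ cnt f (lp Φ G t) 1 ∧ finrank ℚ (bs f (lp Φ G t) (1 / L ^ c')) = α ∧
        bs f (lp Φ G t) (1 / L ^ c) ≤ bs f (lp Φ G t) (1 / L ^ c')) →
      (cnt f G 1 : ℝ) ≤ L ^ (1 + 2 * d) * Θ.card * j ^ 2 →
      ∃ z : ℂ, z ≠ 0 ∧ (cnt f G 1 : ℝ) ≤ L ^ C * (cnt f (lz Φ G z) 1 : ℝ) ^ 2

/-- the thick case of the structure theorem for groups which span `A` -/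
def ThkP (d c C : ℕ) : Prop :=
  ∀ (A : Type) [AddCommGroup A] [Module ℚ A] (E : Type) [NormedAddCommGroup E] [NormedSpace ℝ E]
    (Φ : A →+ ℂ) (f : A →+ E) (G : AddSubgroup A) (Θ : Finset ℝ) (L j : ℝ),
      FiniteDimensional ℚ A → Dsc f G → finrank ℚ A = d → 2 ≤ L → L ^ C ≤ j →
      Ppr Φ f G (L ^ C) → bs f G (1 / L ^ c) = ⊤ → (∀ t ∈ Θ, j ≤ cnt f (lp Φ G t) 1) →
      (cnt f G 1 : ℝ) ≤ L * Θ.card * j ^ 2 →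
      ∃ z : ℂ, z ≠ 0 ∧ (cnt f G 1 : ℝ) ≤ L ^ C * (cnt f (lz Φ G z) 1 : ℝ) ^ 2

/-- the thick case of the structure theorem -/
def ThgP (d c C : ℕ) : Prop :=
  ∀ (A : Type) [AddCommGroup A] [Module ℚ A] (E : Type) [NormedAddCommGroup E] [NormedSpace ℝ E]
    (Φ : A →+ ℂ) (f : A →+ E) (G : AddSubgroup A) (Θ : Finset ℝ) (L j : ℝ),
      FiniteDimensional ℚ (sp G) → Dsc f G → finrank ℚ (sp G) = d → 2 ≤ L → L ^ C ≤ j →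
      Ppr Φ f G (L ^ C) → (∀ x ∈ G, x ∈ bs f G (1 / L ^ c)) →
      (∀ t ∈ Θ, j ≤ cnt f (lp Φ G t) 1) → (cnt f G 1 : ℝ) ≤ L * Θ.card * j ^ 2 →
      ∃ z : ℂ, z ≠ 0 ∧ (cnt f G 1 : ℝ) ≤ L ^ C * (cnt f (lz Φ G z) 1 : ℝ) ^ 2

/-- ROW THK (medium), uses THS.  Choice of the scales.
PROOF.  `c_0 = 0`, `c_(i+1) = c'` of THS for `d, c_i` (`i ≤ d`), `C` = the maximum of the `C`'s,
`c = c_(d+1)`.  For `t ∈ Θ` the ranks `α_i(t) = finrank (bs f (lp Φ G t) (1/L^(c_i)))`,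
`0 ≤ i ≤ d+1`, are nonincreasing in `{0, .., d}`, so `α_i = α_(i+1)` for some `i ≤ d`, and then
the two spaces are equal.  Pigeonhole over `(i, α) ∈ {0..d}²`: `Θ' ⊂ Θ` with the same `(i, α)`,
`|Θ| ≤ (d+1)² |Θ'| ≤ L^(2d) |Θ'|` (`d + 1 ≤ 2^d`).  THS for `c_i`: `bs f G (1/L^(c_(i+1))) = ⊤` by
monotonicity (`bs_mono`). -/
def ThkStmt : Prop := ∀ d : ℕ, ∃ c C : ℕ, ThkP d c C

/-- ROW TKG (easy-medium).  Transport.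
PROOF.  Apply `ThkP` to `A' = sp G` (a type), `G' = Gr G (sp G)`, `f' = fr f (sp G)`,
`Φ' = Φ.comp (sp G).subtype.toAddMonoidHom`: balls, lines, `lz` of `G'` are the subtype versions of
those of `G` (`G ≤ sp G`; `cnt_fr` and `cut G (sp G) = G`; the same argument for the subgroups
`lp Φ G t`, `lz Φ G z`), `bs f' G' (1/L^c) = ⊤` since it contains `G'`, which spans. -/
def TkgStmt : Prop := ∀ d c C : ℕ, ThkP d c C → ThgP d c C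

/-- ROW THN (medium), uses COV.  The thin case.
PROOF.  `τ = 1/L^c ≤ 1`, `G' = cut G (bs f G τ)`.  `bs f G τ ≤ sp G` and the inclusion is strict, so
`finrank (sp G') ≤ finrank (bs f G τ) ≤ d`.  `bl f G' τ = bl f G τ`,
`bl f (lp Φ G' t) τ = bl f (lp Φ G t) τ`.  With `D = d + 1`, COV gives for every subgroup `V` of `G`
`cnt f V 1 ≤ (1 + 2/τ)^D cnt f V τ ≤ (3 L^c)^D cnt f V τ`.  Put `M = L^((c+2) D) ≥ (3 L^c)^D`;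
`j' = j / M`, `L' = L^(1 + 2 (c+2) D)`.  Then `j' ≤ cnt f (lp Φ G' t) τ`,
`cnt f G' τ ≤ cnt f G 1 ≤ L |Θ| j² = L M² |Θ| j'² = L' |Θ| j'²`, `L'^C' ≤ j'` and
`Ppr Φ f G' (L'^C' τ)` if `C ≥ C' (1 + 2 (c+2) D) + (c+2) D`.  `Struc d C'` (with `R = τ`):
`z ≠ 0`, `cnt f G' τ ≤ L'^C' cnt f (lz Φ G' z) τ ²`, and `cnt f G 1 ≤ M cnt f G τ = M cnt f G' τ ≤
L^C cnt f (lz Φ G z) 1 ²` (`lz Φ G' z ≤ lz Φ G z`, `τ ≤ 1`). -/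
def ThnStmt : Prop :=
  ∀ d c C' : ℕ, Struc d C' → ∃ C : ℕ, ∀ (A : Type) [AddCommGroup A] [Module ℚ A] (E : Type)
    [NormedAddCommGroup E] [NormedSpace ℝ E] (Φ : A →+ ℂ) (f : A →+ E) (G : AddSubgroup A)
    (Θ : Finset ℝ) (L j : ℝ), FiniteDimensional ℚ (sp G) → Dsc f G →
      finrank ℚ (sp G) = d + 1 → 2 ≤ L → L ^ C ≤ j → Ppr Φ f G (L ^ C) →
      (∀ t ∈ Θ, j ≤ cnt f (lp Φ G t) 1) → (cnt f G 1 : ℝ) ≤ L * Θ.card * j ^ 2 →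
      ¬ (∀ x ∈ G, x ∈ bs f G (1 / L ^ c)) →
      ∃ z : ℂ, z ≠ 0 ∧ (cnt f G 1 : ℝ) ≤ L ^ C * (cnt f (lz Φ G z) 1 : ℝ) ^ 2

/-- ROW STR (easy-medium), uses THK TKG THN.  Structure theorem.
PROOF.  `Struc d C` implies `Struc d C'` for `C ≤ C'` (`L ≥ 2`).  Induction on `d`.  `d = 0`:
`sp G = 0`, `G = 0`, `cnt f G R = 1`, `z = 1`.  Step: `Struc d C'` given.  If `finrank (sp G) ≤ d` use
it.  Otherwise the rank is `d + 1`; replace `f` by `f' = R⁻¹ • f` (`bl f' G r = bl f G (r R)`,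
`Dsc f' G`, `Ppr Φ f' G (L^C)`), so `R = 1`; `c, C₁` from THK and TKG for `d + 1`, `C₂` from THN for
`d, c, C'`; `C = max`. -/
def StrStmt : Prop := ∀ d : ℕ, ∃ C : ℕ, Struc d C

/-! ### From distances to lines, in the plane -/

/-- ROW ENG (easy-medium).  Energy.
PROOF.  Let `Q` be the number of the `(a, b, a', b') ∈ P⁴` with `‖a - b‖ = ‖a' - b'‖`.
Cauchy-Schwarz over the `nd P` values: `|P|⁴ ≤ nd P * Q` (see `card_sq_le` in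
`Pool.Agent.Helper53_FCM.Dist`).  `u = (a - b) + (a' - b')`, `v = (a - b) + (b' - a')` are in `S` and
orthogonal (`⟨p + q, p - q⟩ = |p|² - |q|²`); given `(u, v)`, `a - b` and `a' - b'` are determined, and a
given difference has at most `|P|` representations: `Q ≤ |P|² #{orthogonal pairs}`.  Divide by
`|P|²` (`P` empty: trivial).  (PLG row ENG in the plane.) -/
def EngStmt : Prop :=
  ∀ P S : Finset ℂ, (∀ a ∈ P, ∀ b ∈ P, ∀ a' ∈ P, ∀ b' ∈ P, (a - b) + (a' - b') ∈ S) →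
    (P.card : ℝ) ^ 2 ≤ nd P * ((S ×ˢ S).filter
      (fun p => p.1.re * p.2.re + p.1.im * p.2.im = 0)).card

/-- ROW PRP (medium).  Orthogonal pairs and lines.
PROOF.  The pairs with `u = 0` or `v = 0` are at most `2 |S|`.  For `u ≠ 0`, `v ≠ 0` orthogonal,
`u.re ≠ 0`, `v.re ≠ 0`; the slopes `s = u.im/u.re`, `t = v.im/v.re` satisfy `1 + s t = 0`, so
`t = -1/s`, `s ≠ 0`.  With `m_s` = number of the nonzero `u ∈ S` of slope `s` the number of the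
pairs is `∑_(s ∈ T, s ≠ 0) m_s m_(-1/s) ≤ ∑ (m_s² + m_(-1/s)²)/2 ≤ ∑_(s ∈ T) m_s²` (`s ↦ -1/s` is
an injection on `s ≠ 0`, and `m = 0` outside `T`). -/
def PrpStmt : Prop :=
  ∀ S : Finset ℂ, (∀ u ∈ S, u.re = 0 → u = 0) →
    ((S ×ˢ S).filter (fun p => p.1.re * p.2.re + p.1.im * p.2.im = 0)).card ≤
      2 * S.card + ∑ t ∈ (S.filter (fun u => u ≠ 0)).image (fun u => u.im / u.re),
        (S.filter (fun u => u.im = t * u.re)).card ^ 2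

/-- ROW SLP (easy-medium), uses SOL.  Solymosi in the plane.
PROOF.  Sort `Θ`, `t_0 < .. < t_n`.  `S_i` = the `u ∈ S` of slope `t_i` with `u.re > 0`.  The `u ∈ S` of
slope `t_i` are `0`, `S_i`, `-S_i` (`S` is symmetric), so `|S_i| ≥ (q-1)/2 ≥ q/3`.  `(i, x, y) ↦ x + y`
is injective (SOL) into `S + S`: `n (q/3)² ≤ |S + S|`. -/
def SlpStmt : Prop :=
  ∀ (S : Finset ℂ) (Θ : Finset ℝ) (q : ℝ), (∀ u ∈ S, -u ∈ S) → 3 ≤ q →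
    (∀ t ∈ Θ, q ≤ (S.filter (fun u => u.im = t * u.re)).card) →
    ((Θ.card : ℝ) - 1) * q ^ 2 ≤ 9 * ((S ×ˢ S).image (fun p => p.1 + p.2)).card

/-- ROW CLS (medium).  Dyadic classes.  (Word for word the row CLS of PLG.)
`N(j)` = number of the `t ∈ T` with `j ≤ m t`.
PROOF.  Suppose the conclusion fails.  For `i ≥ 0` let `x_i = N(2^i) 4^i / n`; only `2^i ≤ n` matter,
at most `1 + log n / log 2 ≤ 2 (1 + log n)` values of `i`.  `∑ (m t)² ≤ 4 ∑_i N(2^i) 4^i` (the `t`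
with `2^i ≤ m t < 2^(i+1)`).  `x_i ≤ K`: for `2^i ≥ 3` by hypothesis, for `i = 0, 1`
`N(2^i) 4^i ≤ 9 N(3) ≤ K n` (`m t ≥ 3`).  If `x_i ≥ 1/(16 (1 + log n))` put `L = max (2, 1/x_i)`,
`j = 2^i`; `n = N 4^i / x_i ≤ L N j²`, so the conclusion fails only if `2^i < L^C₀`: `i < C₀` or
`2^i < x_i^(-C₀)`, i.e. `x_i < θ^i` with `θ = 2^(-1/C₀) < 1` (`C₀ ≥ 1`).  So
`∑ x_i ≤ 2 (1 + log n)/(16 (1 + log n)) + C₀ K + 1/(1 - θ)` and `B = 4 (1 + C₀ K + 1/(1-θ)) + 1` is a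
contradiction to `B n ≤ ∑ (m t)² ≤ 4 n ∑ x_i`. -/
def ClsStmt : Prop :=
  ∀ (K : ℝ) (C₀ : ℕ), 1 ≤ K → 1 ≤ C₀ → ∃ B : ℝ, 1 ≤ B ∧ ∀ (T : Finset ℝ) (m : ℝ → ℕ) (n : ℝ),
    1 ≤ n → (∀ t ∈ T, 3 ≤ m t ∧ (m t : ℝ) ≤ n) →
    (∀ j : ℝ, 3 ≤ j → ((T.filter (fun t => j ≤ m t)).card : ℝ) * j ^ 2 ≤ K * n) →
    B * n ≤ ∑ t ∈ T, (m t : ℝ) ^ 2 →
    ∃ L j : ℝ, 2 ≤ L ∧ L ≤ 16 * (1 + Real.log n) ∧ L ^ C₀ ≤ j ∧
      n ≤ L * (T.filter (fun t => j ≤ m t)).card * j ^ 2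

/-- ROW ROT (easy).  (Word for word the row ROT of PLG.)  PROOF.  `ω = (1 + i s)/|1 + i s|`:
`u.re = s u.im` has at most one solution `s` for `u.im ≠ 0` and none for `u.im = 0, u ≠ 0`; choose
`s` outside a finite set. -/
def RotStmt : Prop :=
  ∀ S : Finset ℂ, ∃ ω : ℂ, ‖ω‖ = 1 ∧ ∀ u ∈ S, u ≠ 0 → (ω * u).re ≠ 0

/-! ### Properness for free -/

/-- ROW PRX (STRONG).  Division by a zero of `Φ`.
PROOF.  `A' = A ⧸ span ℚ {z}`, `E' = E ⧸ span ℝ {f z}` (a closed subspace: finite dimensional,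
`Submodule.closed_of_finiteDimensional`; quotient norm, `Submodule.Quotient.normedAddCommGroup`),
`f'`, `Φ'` induced by `f`, `Φ` (`f (q z) = q f z`, `Φ (q z) = 0`; `QuotientAddGroup.lift`), `G'` = image
of `G`.  `‖f z‖ > 0` (`norm_pos`).  If `x ∈ G` has `‖f' x'‖ ≤ r` for its class `x'`, there is a real `λ`
with `‖f x + λ f z‖ ≤ r + ‖f z‖/2` (definition of the quotient norm); with `m` the nearest integer to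
`λ`: `x + m z ∈ G` has the same class and size `≤ r + ‖f z‖`.  So the ball of radius `r` of `G'` is
contained in the image of `bl f G (r + ‖f z‖)`: `Dsc f' G'` and the bound for `cnt`.  `sp G'` is the
image of `sp G` under the quotient map, whose kernel contains `0 ≠ z ∈ sp G`: dimension `≤ d`.  The
lifting property: `x' ` = class of `x`, `‖f' x'‖ ≤ ‖f x‖`. -/
def PrxStmt : Prop :=
  ∀ (A : Type) [AddCommGroup A] [Module ℚ A] (E : Type) [NormedAddCommGroup E] [NormedSpace ℝ E]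
    (Φ : A →+ ℂ) (f : A →+ E) (G : AddSubgroup A) (d : ℕ) (z : A), Dsc f G →
      FiniteDimensional ℚ (sp G) → finrank ℚ (sp G) ≤ d + 1 → z ∈ G → z ≠ 0 → Φ z = 0 →
      ∃ (A' : Type) (_ : AddCommGroup A') (_ : Module ℚ A') (E' : Type)
        (_ : NormedAddCommGroup E') (_ : NormedSpace ℝ E') (Φ' : A' →+ ℂ) (f' : A' →+ E')
        (G' : AddSubgroup A'), Dsc f' G' ∧ FiniteDimensional ℚ (sp G') ∧
        finrank ℚ (sp G') ≤ d ∧ (∀ x ∈ G, ∃ x' ∈ G', ‖f' x'‖ ≤ ‖f x‖ ∧ Φ' x' = Φ x) ∧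
        ∀ r : ℝ, 0 ≤ r → cnt f' G' r ≤ cnt f G (r + ‖f z‖)

/-- ROW LAD (medium), uses COV PRX.  The adaptive ladder.
PROOF.  Induction on `d` (for all `C₀, a`).  Let `T = (L^a)^C₀`.  If `Ppr Φ f G T`: `c = 0` and the
system itself (`Dom d (L^0) (L^(a+0))^C₀`).  This is the case for `d = 0` (`G = 0`).  Otherwise
`d = d' + 1` and there is `0 ≠ z ∈ G`, `‖f z‖ ≤ T`, `Φ z = 0`.  PRX: a system of rank `≤ d'` with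
`cnt f' G' r ≤ cnt f G (r + T) ≤ (1 + 2(r+T)/r)^d cnt f G r ≤ (3 + 2T)^d cnt f G r` for `r ≥ 1` (COV;
`bs ≤ sp G` has dimension `≤ d`), `3 + 2T ≤ 5T ≤ L^(3 + a C₀)`: the loss is `L^b`,
`b = (3 + a C₀) d`.  The induction hypothesis for `d'`, `C₀`, `a + b` gives `C₃'` and `c' ≤ C₃'`:
total loss `L^(b + c')`, proper for `(L^(a + b + c'))^C₀`; `c = b + c'`, `C₃ = b + C₃'`.  (`T ≥ 1`.) -/
def LadStmt : Prop :=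
  ∀ d C₀ a : ℕ, ∃ C₃ : ℕ, ∀ (A : Type) [AddCommGroup A] [Module ℚ A] (E : Type)
    [NormedAddCommGroup E] [NormedSpace ℝ E] (Φ : A →+ ℂ) (f : A →+ E) (G : AddSubgroup A)
    (L : ℝ), Dsc f G → FiniteDimensional ℚ (sp G) → finrank ℚ (sp G) ≤ d → 2 ≤ L →
      ∃ c : ℕ, c ≤ C₃ ∧ Dom d (L ^ c) ((L ^ (a + c)) ^ C₀) Φ f G

/-! ### The main theorems -/

open Classical in
/-- ROW PAR (easy-medium).  Pigeonhole over the parallel lines.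
PROOF.  `p ~ q` iff `q - p ∈ lin z` is an equivalence relation on `P`; choose representatives `p_c`
and `x_c ∈ bl f G 1` with `Φ x_c = p_c - p₀`.  `(c, v) ↦ x_c + v`, `v ∈ bl f (lz Φ G z) 4`, is
injective into `bl f G 5` (if `x_c + v = x_c' + v'` then `p_c - p_c' ∈ lin z`, `c = c'`).  So the number
of classes times `cnt f (lz Φ G z) 4` is `≤ cnt f G 5`, and the largest class has at least
`|P| / (number of classes)` elements. -/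
def ParStmt : Prop :=
  ∀ (A : Type) [AddCommGroup A] [Module ℚ A] (E : Type) [NormedAddCommGroup E] [NormedSpace ℝ E]
    (Φ : A →+ ℂ) (f : A →+ E) (G : AddSubgroup A) (P : Finset ℂ) (p₀ z : ℂ), Dsc f G →
      P.Nonempty → (∀ p ∈ P, ∃ x ∈ G, ‖f x‖ ≤ 1 ∧ Φ x = p - p₀) →
      ∃ p ∈ P, (P.card : ℝ) * cnt f (lz Φ G z) 4 ≤
        cnt f G 5 * (P.filter (fun q => q - p ∈ lin z)).card

/-- ROW MA1 (STRONG), uses COV SLP STR ENG PRP CLS LAD PAR.  The main theorem if there is no vertical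
vector.
PROOF.  `C ≥ 1` with `Struc d C` (STR).  `C₃` from LAD for `d`, `C₀ := C`, `a := 3`.
`C₀ = (C₃ + 1) C`, `K' = 18 * 5^d`, `B` from CLS for `K', C₀`.  `S = (bl f G 4).image Φ`,
`n = cnt f G 4 ≥ |S|`, `m_t` = number of the `u ∈ S` of slope `t`, `T` = the slopes of the nonzero
`u ∈ S`.  `9^(-d) n ≤ cnt f G 1 ≤ K |P|` by COV (`1 + 8/1 = 9`).  `|P| ≤ |S| ≤ n` (`p ↦ p - p₀`).
`nd P ≥ 1` gives `|P| ≥ 1/ε`, so `log |P| ≥ 1` if `ε ≤ 1/3`.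
ENG for `S` (`p - p₀ ∈ Φ (bl f G 1)`, so the sums of ENG are in `S`) and PRP:
`|P|² ≤ nd P (2 n + ∑_T m_t²)`, so `|P|/ε ≤ 2 n + ∑`, `n/(9^d K ε) ≤ |P|/ε`; for
`ε ≤ 1/(9^d K (B + 2))`: `∑ m_t² ≥ B n`.  `m_t ≥ 3` for `t ∈ T` (`0, u, -u`), `m_t ≤ n`.
FIRST CASE: some `t ∈ T` has `m_t² > n`: `z = ⟨1, t⟩`, `m_t ≤ cnt f (lz Φ G z) 4`, PAR for this system.
SECOND CASE: all `m_t² ≤ n`.  For `j ≥ 3` and `N = N(j)`: `N = 0` trivial, `N = 1`: `j² ≤ m_t² ≤ n`,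
`N ≥ 2`: SLP, `(N-1) j² ≤ 9 |S + S| ≤ 9 cnt f G 8 ≤ 9 * 5^d n` (COV: `1 + 16/4 = 5`), `N ≤ 2 (N-1)`:
in all cases `N j² ≤ K' n`.  CLS: `L, j`, `Θ = T.filter (j ≤ m_t)`.  LAD for this `L`: `c ≤ C₃` and a
system `(A', E', Φ', f', G')` with `Ppr Φ' f' G' ((L^(3+c))^C)`, `cnt f' G' r ≤ L^c cnt f G r` for
`r ≥ 1`.  For `t ∈ Θ`: `j ≤ m_t ≤ cnt f' (lp Φ' G' t) 4` (lift the elements of `S`).
`cnt f' G' 4 ≤ L^c n ≤ L^(c+1) |Θ| j²`.  `Struc d C` with `L' = L^(c+1)`, `R = 4`: `L'^C ≤ L^(C₀) ≤ j`,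
`L'^C 4 ≤ (L^(3+c))^C` (`C ≥ 1`): `z ≠ 0`, `cnt f' G' 4 ≤ L'^C cnt f' (lz Φ' G' z) 4 ²`.  PAR for
the second system (every `p - p₀` has a lift of size `≤ 1`): some `p` with
`|P| cnt f' (lz Φ' G' z) 4 ≤ cnt f' G' 5 M`, and `cnt f' G' 5 ≤ L^c cnt f G 5 ≤ L^c 11^d K |P|`, so
`cnt f' (lz Φ' G' z) 4 ≤ L^c 11^d K M`; `|P| ≤ cnt f' G' 4`.  So in both cases
`sqrt |P| ≤ L^(C₀ + C₃) 11^d K M` with `L ≤ 16 (1 + log n)`, `n ≤ 9^d K |P|`, `log |P| ≥ 1`: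
`L ≤ C₁ log |P|`, `a = C₀ + C₃`. -/
def Ma1Stmt : Prop :=
  ∀ (d : ℕ) (K : ℝ), ∃ (ε c : ℝ) (a : ℕ), 0 < ε ∧ 0 < c ∧
    ∀ (A : Type) [AddCommGroup A] [Module ℚ A] (E : Type) [NormedAddCommGroup E]
      [NormedSpace ℝ E] (Φ : A →+ ℂ) (f : A →+ E) (G : AddSubgroup A) (P : Finset ℂ) (p₀ : ℂ),
      Dsc f G → FiniteDimensional ℚ (sp G) → finrank ℚ (sp G) ≤ d →
      (∀ x ∈ G, ‖f x‖ ≤ 4 → (Φ x).re = 0 → Φ x = 0) → P.Nonempty →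
      (∀ p ∈ P, ∃ x ∈ G, ‖f x‖ ≤ 1 ∧ Φ x = p - p₀) →
      (cnt f G 1 : ℝ) ≤ K * P.card → (nd P : ℝ) ≤ ε * P.card → Rich P c a

/-- ROW MA2 (medium), uses MA1 ROT.  The main theorem.
PROOF.  ROT for `S = (bl f G 4).image Φ` gives `ω`.  Apply MA1 to `Φ' x = ω Φ x`, the same `G, f`,
`P' = P.image (ω * ·)`, `ω p₀`: `nd P' = nd P` since `|ω| = 1`, and `q' - p' ∈ lin z'` iff
`q - p ∈ lin (ω⁻¹ z')`. -/
def Ma2Stmt : Prop :=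
  ∀ (d : ℕ) (K : ℝ), ∃ (ε c : ℝ) (a : ℕ), 0 < ε ∧ 0 < c ∧
    ∀ (A : Type) [AddCommGroup A] [Module ℚ A] (E : Type) [NormedAddCommGroup E]
      [NormedSpace ℝ E] (Φ : A →+ ℂ) (f : A →+ E) (G : AddSubgroup A) (P : Finset ℂ) (p₀ : ℂ),
      Dsc f G → FiniteDimensional ℚ (sp G) → finrank ℚ (sp G) ≤ d → P.Nonempty →
      (∀ p ∈ P, ∃ x ∈ G, ‖f x‖ ≤ 1 ∧ Φ x = p - p₀) →
      (cnt f G 1 : ℝ) ≤ K * P.card → (nd P : ℝ) ≤ ε * P.card → Rich P c a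

/-- ROW GAP (medium), uses MA2.  Generalized progressions with arbitrary steps and sides.
PROOF.  `A = Fin d → ℚ`, `E = Fin d → ℝ` (sup norm), `f x = (x_i / N_i)_i` (for `N_i = 0` take `2 x_i`),
`G` = the vectors with integer coordinates, `Φ x = ∑ x_i g_i`.  For `x ∈ G`: `‖f x‖ ≤ 1` iff
`|x_i| ≤ N_i` for all `i`; balls are finite; `cnt f G 1 = ∏ (2 N_i + 1)`; `finrank (sp G) ≤ d`. -/
def GapStmt : Prop :=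
  ∀ (d : ℕ) (K : ℝ), ∃ (ε c : ℝ) (a : ℕ), 0 < ε ∧ 0 < c ∧
    ∀ (N : Fin d → ℕ) (g : Fin d → ℂ) (P : Finset ℂ) (p₀ : ℂ), P.Nonempty →
      (∀ p ∈ P, ∃ x : Fin d → ℤ, (∀ i, |x i| ≤ N i) ∧ p = p₀ + ∑ i, (x i : ℂ) * g i) →
      (∏ i, (2 * (N i : ℝ) + 1)) ≤ K * P.card →
      (nd P : ℝ) ≤ ε * P.card → Rich P c a

end Pool.Agent.PLX
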