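import Pool.Agent.PLX.StmtsB
import Pool.Agent.FRE.Stmts

/-!
Squad PLX (MP_1fc801_co), part C: the bridge to squad FRE.
-/

set_option autoImplicit false

namespace Pool.Agent.PLX

/-- ROW GPL (easy-medium), uses GAP.  The form used by squad FRE.
PROOF.  `ε', c, a` from GAP for `d, K`.  `ε = ε'/2`, `A = a + 1` (real), `n₀` with `n₀ ≥ 3`,
`1 ≤ (ε'/2) n₀`.  `P` is nonempty, `p₀ = 0`; `PLX.nd P ≤ FRE.nd P + 1` (the values of `‖p - q‖` on the
diagonal are `0`) `≤ ε' |P|`.  `Rich P c a` gives `z ≠ 0`, `p ∈ P`: the `q` with `q - p ∈ lin z` are of the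
form `p + t z`; `(log |P|)^a ≤ (log |P|)^A` because `log |P| ≥ 1` (`n₀ ≥ 3`). -/
def GplRow : Prop := GapStmt → Pool.Agent.FRE.GplStmt

end Pool.Agent.PLX
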