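import Pool.Agent.PLX.StmtsB

/-!
Squad PLX (MP_1fc801_co), part D: the versions which are uniform in the density.
-/

set_option autoImplicit false

namespace Pool.Agent.PLX

open Module

open Classical in
/-- conclusion: a line with at least `c |P| / (√n (log |P|)^a)` points of `P` -/
def RichU (P : Finset ℂ) (n c : ℝ) (a : ℕ) : Prop :=
  ∃ z : ℂ, z ≠ 0 ∧ ∃ p ∈ P, c * P.card ≤
    Real.sqrt n * (Real.log P.card) ^ a * (P.filter (fun q => q - p ∈ lin z)).card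

/-- ROW MU1 (STRONG), uses COV SLP STR ENG PRP CLS LAD PAR.  MA1, uniform in the density.
PROOF.  `n₁ = cnt f G 1`, `n = cnt f G 4 ≤ 9^d n₁`, `S = (bl f G 4).image Φ`, `|P| ≤ |S| ≤ n`,
`|P| ≤ n₁`; `nd P ≥ 1`, `n₁ nd P ≤ κ |P|²`, so `|P| ≥ 1/κ` and `n₁ ≤ κ |P|² ≤ |P|²`.  ENG, PRP:
`|P|² ≤ nd P (2 n + ∑_T m_t²)`, so `n/(9^d κ) ≤ n₁/κ ≤ 2 n + ∑`, so `∑ m_t² ≥ B n` for
`κ ≤ 1/(9^d (B + 2))`.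
FIRST CASE: some `t ∈ T` has `m_t² > n`: `z = ⟨1, t⟩`, PAR: `|P| m_t ≤ cnt f G 5 M ≤ 11^d n₁ M`, and
`m_t ≥ √n ≥ √n₁`.
SECOND CASE: as in MA1, CLS gives `L, j`, `Θ`, `n ≤ L |Θ| j²`.  If `|Θ| = 1`: `j² ≥ n/L`,
`z = ⟨1, t⟩`, as in the first case with `m_t ≥ j ≥ √(n/L)`.  If `|Θ| ≥ 2`: SLP:
`n/L ≤ |Θ| j² ≤ 2 (|Θ| - 1) j² ≤ 18 |S + S|`.  LAD: the second system; `S + S` is contained in
the image of `bl f' G' 8`, so `cnt f' G' 4 ≥ 5^(-d) cnt f' G' 8 ≥ 5^(-d) n/(18 L)` (COV).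
`Struc`: `cnt f' G' 4 ≤ L'^C cnt f' (lz Φ' G' z) 4 ²`, PAR:
`|P| cnt f' (lz Φ' G' z) 4 ≤ cnt f' G' 5 M ≤ L^c 11^d n₁ M`.  So
`|P| √n₁ ≤ |P| √n ≤ C₁ L^k |P| cnt f' (lz ..) 4 ≤ C₂ L^k' n₁ M`, i.e. `|P| ≤ C₂ L^k' √n₁ M`, and
`L ≤ 16 (1 + log n) ≤ C₃ log |P|`. -/
def Mu1Stmt : Prop :=
  ∀ d : ℕ, ∃ (κ c : ℝ) (a : ℕ), 0 < κ ∧ 0 < c ∧
    ∀ (A : Type) [AddCommGroup A] [Module ℚ A] (E : Type) [NormedAddCommGroup E]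
      [NormedSpace ℝ E] (Φ : A →+ ℂ) (f : A →+ E) (G : AddSubgroup A) (P : Finset ℂ) (p₀ : ℂ),
      Dsc f G → FiniteDimensional ℚ (sp G) → finrank ℚ (sp G) ≤ d →
      (∀ x ∈ G, ‖f x‖ ≤ 4 → (Φ x).re = 0 → Φ x = 0) → P.Nonempty →
      (∀ p ∈ P, ∃ x ∈ G, ‖f x‖ ≤ 1 ∧ Φ x = p - p₀) →
      (cnt f G 1 : ℝ) * nd P ≤ κ * (P.card : ℝ) ^ 2 → RichU P (cnt f G 1) c a

/-- ROW MU2 (medium), uses MU1 ROT.  As MA2. -/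
def Mu2Stmt : Prop :=
  ∀ d : ℕ, ∃ (κ c : ℝ) (a : ℕ), 0 < κ ∧ 0 < c ∧
    ∀ (A : Type) [AddCommGroup A] [Module ℚ A] (E : Type) [NormedAddCommGroup E]
      [NormedSpace ℝ E] (Φ : A →+ ℂ) (f : A →+ E) (G : AddSubgroup A) (P : Finset ℂ) (p₀ : ℂ),
      Dsc f G → FiniteDimensional ℚ (sp G) → finrank ℚ (sp G) ≤ d → P.Nonempty →
      (∀ p ∈ P, ∃ x ∈ G, ‖f x‖ ≤ 1 ∧ Φ x = p - p₀) →
      (cnt f G 1 : ℝ) * nd P ≤ κ * (P.card : ℝ) ^ 2 → RichU P (cnt f G 1) c a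

/-- ROW GPU (medium), uses MU2.  As GAP: progressions with arbitrary steps, any density. -/
def GpuStmt : Prop :=
  ∀ d : ℕ, ∃ (κ c : ℝ) (a : ℕ), 0 < κ ∧ 0 < c ∧
    ∀ (N : Fin d → ℕ) (g : Fin d → ℂ) (P : Finset ℂ) (p₀ : ℂ), P.Nonempty →
      (∀ p ∈ P, ∃ x : Fin d → ℤ, (∀ i, |x i| ≤ N i) ∧ p = p₀ + ∑ i, (x i : ℂ) * g i) →
      (∏ i, (2 * (N i : ℝ) + 1)) * nd P ≤ κ * (P.card : ℝ) ^ 2 →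
      RichU P (∏ i, (2 * (N i : ℝ) + 1)) c a

/-- ROW GUP (easy-medium).  GPU implies GAP: `K ≥ 1` (or take `max K 1`), `ε = κ/K`; `√n ≤ √(K |P|)`. -/
def GupStmt : Prop := GpuStmt → GapStmt

end Pool.Agent.PLX
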